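import Pool.Agent.Lib.J4c.NumStm

/-!
MP_4c1f79_al, piece J_rec: unfolding of the recursion.
-/

set_option autoImplicit false
set_option linter.unusedVariables false

namespace J4c

theorem p_J_rec : S_J_rec := by
  intro ι _ _ F _ b v a ha
  have h1 : J b v a = if a = 0 then 1 else
      (1 - v ^ bq b a)⁻¹ * ∑ β ∈ (Finset.Iio a).attach,
        v ^ bq b β.1 / vpm b v (a - β.1) * J b v β.1 := by
    conv_lhs => rw [J]
    rw [WellFounded.fix_eq]
    rfl
  rw [h1, if_neg ha]
  congr 1
  exact Finset.sum_attach (Finset.Iio a) (fun β => v ^ bq b β / vpm b v (a - β) * J b v β)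

end J4c
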