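import Pool.Agent.Lib.J4c.NumStm

set_option autoImplicit false

namespace J4c

private theorem J_sigma_zero {ι : Type} [Fintype ι] [DecidableEq ι] {F : Type} [Field F]
    (b : ι → ι → ℤ) (v : F) : J b v 0 = 1 := by
  unfold J
  rw [WellFounded.fix_eq]
  exact if_pos rfl

private theorem J_sigma_even {ι : Type} [Fintype ι] [DecidableEq ι] {b : ι → ι → ℤ}
    (hb : GoodForm b) (a : ι → ℕ) : (2 : ℤ) ∣ ∑ i, ∑ j, b i j * (a i : ℤ) * (a j : ℤ) := by
  have h : ((∑ i, ∑ j, b i j * (a i : ℤ) * (a j : ℤ) : ℤ) : ZMod 2) = 0 := by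
    rw [← Finset.sum_product', Int.cast_sum]
    apply Finset.sum_involution (fun (x : ι × ι) _ => x.swap)
    · rintro ⟨i, j⟩ _
      show ((b i j * (a i : ℤ) * (a j : ℤ) : ℤ) : ZMod 2) +
        ((b j i * (a j : ℤ) * (a i : ℤ) : ℤ) : ZMod 2) = 0
      rw [hb.symm j i, mul_right_comm (b i j) (a j : ℤ)]
      exact CharTwo.add_self_eq_zero _
    · rintro ⟨i, j⟩ _ hne hij
      apply hne
      have : j = i := congrArg Prod.fst hij
      subst this
      have h1 : (2 : ℤ) ∣ b j j * (a j : ℤ) * (a j : ℤ) :=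
        ((hb.even j).mul_right _).mul_right _
      exact (ZMod.intCast_zmod_eq_zero_iff_dvd _ 2).2 h1
    · intro x _
      simp
    · rintro ⟨i, j⟩ _
      rfl
  exact (ZMod.intCast_zmod_eq_zero_iff_dvd _ 2).1 h

private theorem J_sigma_bq {ι : Type} [Fintype ι] [DecidableEq ι] {b : ι → ι → ℤ}
    (hb : GoodForm b) (a : ι → ℕ) :
    ((2 * bq b a : ℕ) : ℤ) = ∑ i, ∑ j, b i j * (a i : ℤ) * (a j : ℤ) := by
  obtain ⟨m, hm⟩ := J_sigma_even hb a
  have hbq : bq b a = m.toNat := by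
    unfold bq
    rw [hm, Int.mul_ediv_cancel_left m (by norm_num)]
  have hm0 : 0 ≤ m := by
    by_cases ha : a = 0
    · subst ha
      simp only [Pi.zero_apply, Nat.cast_zero, mul_zero, Finset.sum_const_zero] at hm
      omega
    · have h1 := hb.bq_pos a ha
      rw [hbq] at h1
      omega
  rw [hbq, hm]
  push_cast
  rw [Int.toNat_of_nonneg hm0]

private theorem J_sigma_form {r : ℕ} (t : Fin r → DT) (k : Fin r) (i j : Fin (t k).rank) :
    sform t ⟨k, i⟩ ⟨k, j⟩ = (t k).form i j := by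
  unfold sform
  rw [dif_pos rfl]

private theorem J_sigma_form_ne {r : ℕ} (t : Fin r → DT) {k k' : Fin r} (h : k' ≠ k)
    (i : Fin (t k).rank) (j : Fin (t k').rank) : sform t ⟨k, i⟩ ⟨k', j⟩ = 0 := by
  unfold sform
  rw [dif_neg h]

private theorem J_sigma_bd {r : ℕ} (t : Fin r → DT) (k : Fin r) (i : Fin (t k).rank) :
    bd (sform t) ⟨k, i⟩ = bd (t k).form i := by
  unfold bd
  rw [J_sigma_form]

private theorem J_sigma_vpm {r : ℕ} (t : Fin r → DT) {F : Type} [Field F] (v : F)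
    (a : ((k : Fin r) × Fin (t k).rank) → ℕ) :
    vpm (sform t) v a = ∏ k, vpm (t k).form v (fun i => a ⟨k, i⟩) := by
  unfold vpm
  rw [Fintype.prod_sigma]
  apply Finset.prod_congr rfl
  intro k _
  apply Finset.prod_congr rfl
  intro i _
  rw [J_sigma_bd]

private theorem J_sigma_bqs {r : ℕ} (t : Fin r → DT) (hg : ∀ k, GoodForm (t k).form)
    (a : ((k : Fin r) × Fin (t k).rank) → ℕ) :
    bq (sform t) a = ∑ k, bq (t k).form (fun i => a ⟨k, i⟩) := by
  have h1 : ∑ x, ∑ y, sform t x y * (a x : ℤ) * (a y : ℤ) =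
      ((2 * ∑ k, bq (t k).form (fun i => a ⟨k, i⟩) : ℕ) : ℤ) := by
    rw [Finset.mul_sum, Nat.cast_sum, Fintype.sum_sigma]
    apply Finset.sum_congr rfl
    intro k _
    rw [J_sigma_bq (hg k)]
    apply Finset.sum_congr rfl
    intro i _
    rw [Fintype.sum_sigma, Finset.sum_eq_single k]
    · apply Finset.sum_congr rfl
      intro j _
      rw [J_sigma_form]
    · intro k' _ hk'
      apply Finset.sum_eq_zero
      intro j _
      rw [J_sigma_form_ne t hk']
      ring
    · intro h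
      exact absurd (Finset.mem_univ k) h
  have h2 : bq (sform t) a = ((∑ x, ∑ y, sform t x y * (a x : ℤ) * (a y : ℤ)) / 2).toNat := rfl
  rw [h2, h1]
  push_cast
  rw [Int.mul_ediv_cancel_left _ (by norm_num)]
  rw [← Nat.cast_sum, Int.toNat_natCast]

private theorem J_sigma_vpm_zero {ι : Type} [Fintype ι] [DecidableEq ι] {F : Type} [Field F]
    (b : ι → ι → ℤ) (v : F) : vpm b v 0 = 1 := by
  unfold vpm vp
  simp

private theorem J_sigma_bq_zero {ι : Type} [Fintype ι] [DecidableEq ι] (b : ι → ι → ℤ) :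
    bq b 0 = 0 := by
  unfold bq
  simp

/-- the recursion, also for `a = 0` -/
private theorem J_sigma_rec (h2 : S_J_sum) {ι : Type} [Fintype ι] [DecidableEq ι]
    {b : ι → ι → ℤ} (hb : GoodForm b) {F : Type} [Field F] (v : F)
    (hv : ∀ j : ℕ, v ^ (j + 1) ≠ 1) (a : ι → ℕ) :
    J b v a = ∑ β ∈ Finset.Iic a, v ^ bq b β / vpm b v (a - β) * J b v β := by
  by_cases ha : a = 0
  · subst ha
    have h3 : Finset.Iic (0 : ι → ℕ) = {0} := by
      ext x
      rw [Finset.mem_Iic, Finset.mem_singleton]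
      exact ⟨fun h => le_antisymm h (fun _ => Nat.zero_le _), fun h => h.le⟩
    rw [h3, Finset.sum_singleton, J_sigma_zero, J_sigma_bq_zero]
    have h4 : (0 : ι → ℕ) - 0 = 0 := by
      funext i
      rfl
    rw [h4, J_sigma_vpm_zero]
    simp
  · apply h2 b v a ha
    have h3 := hb.bq_pos a ha
    obtain ⟨m, hm⟩ : ∃ m, bq b a = m + 1 := ⟨bq b a - 1, by omega⟩
    rw [hm]
    exact hv m

theorem p_J_sigma (h1 : S_J_unique) (h2 : S_J_sum) : S_J_sigma := by
  classical
  intro r t hg F _ v hv a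
  refine ⟨?_, J_sigma_vpm t v a⟩
  have key := h1 (sform t) v ?_ (fun a => ∏ k, J (t k).form v (fun i => a ⟨k, i⟩)) ?_ ?_ a
  · exact key.symm
  · intro a ha
    have h3 : 0 < bq (sform t) a := by
      rw [J_sigma_bqs t hg]
      obtain ⟨⟨k, i⟩, hki⟩ := Function.ne_iff.1 ha
      have h4 : (fun i => a ⟨k, i⟩) ≠ 0 := fun h => hki (congrFun h i)
      exact lt_of_lt_of_le ((hg k).bq_pos _ h4)
        (Finset.single_le_sum (f := fun k => bq (t k).form (fun i => a ⟨k, i⟩))
          (fun _ _ => Nat.zero_le _) (Finset.mem_univ k))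
    obtain ⟨m, hm⟩ : ∃ m, bq (sform t) a = m + 1 := ⟨bq (sform t) a - 1, by omega⟩
    rw [hm]
    exact hv m
  · apply Finset.prod_eq_one
    intro k _
    exact J_sigma_zero _ _
  · intro a ha
    show ∏ k, J (t k).form v (fun i => a ⟨k, i⟩) = _
    rw [Finset.prod_congr rfl fun k _ => J_sigma_rec h2 (hg k) v hv (fun i => a ⟨k, i⟩)]
    rw [Finset.prod_univ_sum]
    refine Finset.sum_nbij' (fun x => fun y => x y.1 y.2) (fun β => fun k i => β ⟨k, i⟩) ?_ ?_ ?_ ?_ ?_
    · intro x hx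
      rw [Fintype.mem_piFinset] at hx
      rw [Finset.mem_Iic]
      rintro ⟨k, i⟩
      exact Finset.mem_Iic.1 (hx k) i
    · intro β hβ
      rw [Fintype.mem_piFinset]
      intro k
      rw [Finset.mem_Iic] at hβ ⊢
      intro i
      exact hβ ⟨k, i⟩
    · intro x _
      rfl
    · intro β _
      rfl
    · intro x _
      rw [J_sigma_bqs t hg, J_sigma_vpm, ← Finset.prod_pow_eq_pow_sum, ← Finset.prod_div_distrib,
        ← Finset.prod_mul_distrib]
      rfl

end J4c
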