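import Pool.Agent.Lib.J4c.NumStm

/-!
MP_4c1f79_al, piece J_sum: the recursion with the term `β = a` included.
-/

set_option autoImplicit false
set_option linter.unusedVariables false

namespace J4c

theorem p_J_sum (h1 : S_J_rec) : S_J_sum := by
  intro ι _ _ F _ b v a ha hv
  have hne : (1 : F) - v ^ bq b a ≠ 0 := sub_ne_zero.2 (Ne.symm hv)
  have hz : vpm b v 0 = 1 := by
    unfold vpm
    apply Finset.prod_eq_one
    intro i _
    simp [vp]
  rw [← Finset.Iio_insert a, Finset.sum_insert (by simp), tsub_self, hz, div_one]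
  have e1 := h1 b v a ha
  have e2 : (1 - v ^ bq b a) * J b v a
      = ∑ β ∈ Finset.Iio a, v ^ bq b β / vpm b v (a - β) * J b v β := by
    conv_lhs => rw [e1]
    rw [mul_inv_cancel_left₀ hne]
  rw [← e2]
  ring

end J4c
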