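import Pool.Agent.Lib.J4c.NumStm

/-!
MP_4c1f79_al, piece J_unique: the recursion has a unique solution.
-/

set_option autoImplicit false
set_option linter.unusedVariables false

namespace J4c

private theorem J_unique_vpm_zero {ι : Type} [Fintype ι] [DecidableEq ι] {F : Type} [Field F]
    (b : ι → ι → ℤ) (v : F) : vpm b v 0 = 1 := by
  unfold vpm
  apply Finset.prod_eq_one
  intro i _
  simp [vp]

private theorem J_unique_split {ι : Type} [Fintype ι] [DecidableEq ι] {F : Type} [Field F]
    (b : ι → ι → ℤ) (v : F) (a : ι → ℕ) (K : (ι → ℕ) → F) :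
    ∑ β ∈ Finset.Iic a, v ^ bq b β / vpm b v (a - β) * K β
      = v ^ bq b a * K a + ∑ β ∈ Finset.Iio a, v ^ bq b β / vpm b v (a - β) * K β := by
  rw [← Finset.Iio_insert a, Finset.sum_insert (by simp), tsub_self, J_unique_vpm_zero, div_one]

theorem p_J_unique (h1 : S_J_zero) (h2 : S_J_rec) : S_J_unique := by
  intro ι _ _ F _ b v hv J' h0 h a
  induction a using WellFoundedLT.induction with
  | _ a ih =>
    by_cases ha : a = 0
    · rw [ha, h0, h1 b v]
    · have hne : (1 : F) - v ^ bq b a ≠ 0 := sub_ne_zero.2 (Ne.symm (hv a ha))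
      have e1 := h a ha
      rw [J_unique_split] at e1
      have e2 : ∑ β ∈ Finset.Iio a, v ^ bq b β / vpm b v (a - β) * J' β
          = ∑ β ∈ Finset.Iio a, v ^ bq b β / vpm b v (a - β) * J b v β := by
        apply Finset.sum_congr rfl
        intro β hβ
        rw [ih β (Finset.mem_Iio.1 hβ)]
      rw [e2] at e1
      have e3 : (1 - v ^ bq b a) * J' a
          = ∑ β ∈ Finset.Iio a, v ^ bq b β / vpm b v (a - β) * J b v β := by
        rw [sub_mul, one_mul, sub_eq_iff_eq_add']
        exact e1
      rw [h2 b v a ha, ← e3, inv_mul_cancel_left₀ hne]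

end J4c
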