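import Pool.Agent.Lib.J4c.NumStm

/-! `J b v 0 = 1`: unfold the well-founded recursion. -/

set_option autoImplicit false

namespace J4c

theorem p_J_zero : S_J_zero := by
  intro ι _ _ F _ b v
  unfold J
  rw [WellFounded.fix_eq]
  simp

end J4c
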