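import Pool.Agent.Lib.J4c.NumStm

/-!
MP_4c1f79_al, piece PosJ_sigma: the conclusion for a direct sum.
-/

set_option autoImplicit false
set_option linter.unusedVariables false

namespace J4c

theorem PosJ_sigma_X (j : ℕ) : (RatFunc.X : RatFunc ℚ) ^ (j + 1) ≠ 1 := by
  intro h
  have h1 : algebraMap (Polynomial ℚ) (RatFunc ℚ) (Polynomial.X ^ (j + 1)) =
      algebraMap (Polynomial ℚ) (RatFunc ℚ) 1 := by
    rw [map_pow, RatFunc.algebraMap_X, h, map_one]
  have h2 := RatFunc.algebraMap_injective ℚ h1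
  have h3 := congrArg (Polynomial.eval 0) h2
  simp at h3

theorem p_PosJ_sigma (h1 : S_J_sigma) : S_PosJ_sigma := by
  intro r t hg h a
  have h2 := h1 t hg (RatFunc.X : RatFunc ℚ) PosJ_sigma_X a
  choose P hP using fun k => h k (fun i => a ⟨k, i⟩)
  refine ⟨∏ k, P k, ?_⟩
  rw [h2.1, h2.2, ← Finset.prod_pow, ← Finset.prod_mul_distrib, Polynomial.map_prod, map_prod]
  exact Finset.prod_congr rfl fun k _ => hP k

end J4c
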