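import Pool.Agent.Lib.J4c.NumStm

/-!
MP_4c1f79_al, piece be_add: `∑ d_i a_i ^ 2 = be b a + bq b a`.
-/

set_option autoImplicit false

namespace J4c

private theorem be_add_row {ι : Type} [Fintype ι] [DecidableEq ι] (b : ι → ι → ℤ)
    (hb : GoodForm b) (a : ι → ℕ) (i : ι) :
    ∑ j, b i j * (a i : ℤ) * (a j : ℤ) ≤ 2 * ((bd b i * a i ^ 2 : ℕ) : ℤ) := by
  have h1 : ∑ j, b i j * (a i : ℤ) * (a j : ℤ)
      ≤ ∑ j, if j = i then b i i * (a i : ℤ) * (a i : ℤ) else 0 := by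
    refine Finset.sum_le_sum fun j _ => ?_
    split_ifs with h
    · subst h
      exact le_rfl
    · have h2 := hb.nonpos i j (fun e => h e.symm)
      have h3 : (0 : ℤ) ≤ (a i : ℤ) * (a j : ℤ) := by positivity
      rw [mul_assoc]
      exact mul_nonpos_of_nonpos_of_nonneg h2 h3
  rw [Finset.sum_ite_eq' Finset.univ i, if_pos (Finset.mem_univ i)] at h1
  refine h1.trans (le_of_eq ?_)
  obtain ⟨c, hc⟩ := hb.even i
  have hp := hb.pos i
  have h4 : (bd b i : ℤ) = c := by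
    unfold bd
    rw [hc, Int.mul_ediv_cancel_left c (by norm_num)]
    exact Int.toNat_of_nonneg (by omega)
  push_cast
  rw [h4, hc]
  ring

theorem p_be_add : S_be_add := by
  intro ι _ _ b hb a
  have h1 : ∑ i, ∑ j, b i j * (a i : ℤ) * (a j : ℤ) ≤ 2 * ((∑ i, bd b i * a i ^ 2 : ℕ) : ℤ) := by
    rw [Nat.cast_sum, Finset.mul_sum]
    exact Finset.sum_le_sum fun i _ => be_add_row b hb a i
  have h2 : bq b a ≤ ∑ i, bd b i * a i ^ 2 := by
    unfold bq
    rw [Int.toNat_le]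
    omega
  unfold be
  exact Nat.sub_add_cancel h2

end J4c
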