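import Pool.Agent.Lib.J4c.NumStm

set_option autoImplicit false

namespace J4c

private theorem coord_term (h2 : S_gb_vp) {q : ℕ} (hq : 2 ≤ q) {v : ℚ} (hv : v = (q : ℚ)⁻¹)
    (hqv : (q : ℚ) * v = 1) (hvp : ∀ k, vp v k ≠ 0) (n m c : ℕ) :
    v ^ ((n + c) ^ 2) * (gb q (n + c) n : ℚ) / (vp v (m - c) * vp v (n + c) ^ 2)
      = v ^ (n ^ 2) / vp v n * (v ^ (c * (c + n)) / (vp v (m - c) * vp v c * vp v (c + n))) := by
  have h := h2 q hq (n + c) n (Nat.le_add_right n c)
  rw [← hv, Nat.add_sub_cancel_left] at h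
  rw [h]
  have e1 : (n + c) ^ 2 = n ^ 2 + c * (c + n) + n * c := by ring
  have e2 : v ^ (n * c) * (q : ℚ) ^ (n * c) = 1 := by
    rw [← mul_pow, mul_comm, hqv, one_pow]
  rw [e1, pow_add, pow_add, add_comm c n]
  have a1 := hvp n
  have a2 := hvp c
  have a3 := hvp (n + c)
  have a4 := hvp (m - c)
  rw [add_comm n c] at a3 ⊢
  field_simp
  linear_combination (v ^ (n ^ 2) * v ^ (c * (c + n))) * e2

theorem p_coord (h1 : S_vand) (h2 : S_gb_vp) (h3 : S_gb_zero) : S_coord := by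
  intro q hq a n
  obtain ⟨v, hv⟩ : ∃ v : ℚ, v = (q : ℚ)⁻¹ := ⟨_, rfl⟩
  rw [← hv]
  have hq0 : (q : ℚ) ≠ 0 := by
    have : q ≠ 0 := by omega
    exact_mod_cast this
  have hqv : (q : ℚ) * v = 1 := by
    rw [hv, mul_inv_cancel₀ hq0]
  have hv0 : 0 ≤ v := by
    rw [hv]
    positivity
  have hv1 : v < 1 := by
    rw [hv]
    apply inv_lt_one_of_one_lt₀
    exact_mod_cast hq
  have hvj : ∀ j : ℕ, v ^ (j + 1) ≠ 1 := fun j => (pow_lt_one₀ hv0 hv1 (Nat.succ_ne_zero j)).ne
  have hvp : ∀ k, vp v k ≠ 0 := by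
    intro k
    unfold vp
    rw [Finset.prod_ne_zero_iff]
    intro j _
    exact sub_ne_zero.2 (hvj j).symm
  by_cases hna : n ≤ a
  · obtain ⟨m, rfl⟩ := Nat.exists_eq_add_of_le hna
    have hR : ∑ β ∈ Finset.range (n + m + 1), v ^ (β ^ 2) * (gb q β n : ℚ) /
        (vp v (n + m - β) * vp v β ^ 2) = v ^ (n ^ 2) / vp v n * (1 / (vp v m * vp v (m + n))) := by
      rw [add_assoc, Finset.sum_range_add, Finset.sum_eq_zero, zero_add]
      · rw [← h1 v hvj m n, Finset.mul_sum]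
        apply Finset.sum_congr rfl
        intro c _
        have e3 : n + m - (n + c) = m - c := by omega
        rw [e3]
        exact coord_term h2 hq hv hqv hvp n m c
      · intro β hβ
        rw [h3 q β n (Finset.mem_range.1 hβ)]
        simp
    rw [hR]
    have h := h2 q hq (n + m) n (Nat.le_add_right n m)
    rw [← hv, Nat.add_sub_cancel_left] at h
    rw [h]
    have e1 : (n + m) * n = n ^ 2 + n * m := by ring
    have e2 : v ^ (n * m) * (q : ℚ) ^ (n * m) = 1 := by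
      rw [← mul_pow, mul_comm, hqv, one_pow]
    rw [e1, pow_add, add_comm m n]
    have a1 := hvp n
    have a2 := hvp m
    have a3 := hvp (n + m)
    field_simp
    linear_combination (v ^ (n ^ 2)) * e2
  · rw [h3 q a n (by omega)]
    rw [Finset.sum_eq_zero]
    · simp
    · intro β hβ
      have := Finset.mem_range.1 hβ
      rw [h3 q β n (by omega)]
      simp

end J4c
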