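import Pool.Agent.Lib.J4c.NumStm

/-!
# [J4 coords] The product of `coord` over the coordinates
-/

set_option autoImplicit false

namespace J4c

theorem p_coords (h1 : S_coord) : S_coords := by
  intro ι _ _ b hb q hq a n
  -- the local bases
  have hd : ∀ i, 2 ≤ q ^ bd b i := by
    intro i
    have h2 := hb.pos i
    obtain ⟨c, hc⟩ := hb.even i
    have h3 : 1 ≤ bd b i := by
      rw [bd, hc]
      omega
    calc 2 ≤ q := hq
      _ = q ^ 1 := (pow_one q).symm
      _ ≤ q ^ bd b i := Nat.pow_le_pow_right (by omega) h3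
  have hinv : ∀ i, ((q : ℚ)⁻¹) ^ bd b i = ((q ^ bd b i : ℕ) : ℚ)⁻¹ := by
    intro i
    rw [Nat.cast_pow, inv_pow]
  have hIic : Finset.Iic a = Fintype.piFinset fun i => Finset.range (a i + 1) := by
    ext β
    rw [Finset.mem_Iic, Fintype.mem_piFinset, Pi.le_def]
    exact forall_congr' fun i => by rw [Finset.mem_range, Nat.lt_succ_iff]
  have hL : ∀ c : ι → ℕ, ((q : ℚ)⁻¹) ^ (∑ i, bd b i * c i) =
      ∏ i, (((q ^ bd b i : ℕ) : ℚ)⁻¹) ^ c i := by
    intro c
    rw [← Finset.prod_pow_eq_pow_sum]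
    exact Finset.prod_congr rfl fun i _ => by rw [pow_mul, hinv]
  have hv : ∀ c : ι → ℕ, vpm b ((q : ℚ)⁻¹) c = ∏ i, vp (((q ^ bd b i : ℕ) : ℚ)⁻¹) (c i) := by
    intro c
    rw [vpm]
    exact Finset.prod_congr rfl fun i _ => by rw [hinv]
  have e1 : (∑ i, bd b i * a i * n i) = ∑ i, bd b i * (a i * n i) :=
    Finset.sum_congr rfl fun i _ => mul_assoc _ _ _
  rw [e1, hL, hv, hIic, ← Finset.prod_pow, ← Finset.prod_mul_distrib, ← Finset.prod_div_distrib]
  rw [Finset.prod_congr rfl fun i _ => h1 (q ^ bd b i) (hd i) (a i) (n i),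
    Finset.prod_univ_sum]
  refine Finset.sum_congr rfl fun β _ => ?_
  rw [hL, hv, hv, ← Finset.prod_pow, ← Finset.prod_mul_distrib, ← Finset.prod_mul_distrib,
    ← Finset.prod_div_distrib]
  rfl

end J4c
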