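import Pool.Agent.Lib.J4c.NumStm

/-!
MP_4c1f79_al, numerical part: from the values at the primes to the polynomial.
-/

set_option autoImplicit false
set_option linter.unusedVariables false

open Polynomial

namespace J4c

/-- The polynomial `(X)_a`. -/
private noncomputable def final_one_W {ι : Type} [Fintype ι] (b : ι → ι → ℤ) (a : ι → ℕ) :
    ℚ[X] := ∏ i, ∏ j ∈ Finset.range (a i), (1 - (X ^ bd b i) ^ (j + 1))

private lemma final_one_W_eval {ι : Type} [Fintype ι] (b : ι → ι → ℤ) (a : ι → ℕ) (v : ℚ) :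
    (final_one_W b a).eval v = vpm b v a := by
  simp [final_one_W, vpm, vp, Polynomial.eval_prod]

private lemma final_one_W_rat {ι : Type} [Fintype ι] (b : ι → ι → ℤ) (a : ι → ℕ) :
    algebraMap ℚ[X] (RatFunc ℚ) (final_one_W b a) = vpm b (RatFunc.X : RatFunc ℚ) a := by
  simp [final_one_W, vpm, vp, map_prod, RatFunc.algebraMap_X]

/-- The pigeonhole principle for the primes. -/
private lemma final_one_pigeon (S : Finset ℕ[X]) (R : ℕ[X] → ℕ → Prop)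
    (h : ∀ q : ℕ, q.Prime → ∃ f ∈ S, R f q) : ∃ f, {q : ℕ | q.Prime ∧ R f q}.Infinite := by
  by_contra hc
  have hc' : ∀ f, {q : ℕ | q.Prime ∧ R f q}.Finite := by
    intro f
    by_contra hf
    exact hc ⟨f, hf⟩
  have hfin : (⋃ f ∈ (S : Set ℕ[X]), {q : ℕ | q.Prime ∧ R f q}).Finite :=
    S.finite_toSet.biUnion fun f _ => hc' f
  refine Nat.infinite_setOfPred_prime (hfin.subset ?_)
  intro q hq
  obtain ⟨f, hf, hR⟩ := h q hq
  exact Set.mem_biUnion (x := f) hf ⟨hq, hR⟩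

/-- The value of the reversed polynomial. -/
private lemma final_one_rev (f : ℕ[X]) (q : ℕ) (hq : q ≠ 0) :
    ((f.eval q : ℕ) : ℚ)
      = (f.reverse.map (Nat.castRingHom ℚ)).eval ((q : ℚ)⁻¹) * (q : ℚ) ^ f.natDegree := by
  have hq' : (q : ℚ) ≠ 0 := by exact_mod_cast hq
  have : Invertible (q : ℚ) := invertibleOfNonzero hq'
  have h := Polynomial.eval₂_reverse_mul_pow (Nat.castRingHom ℚ) (q : ℚ) f
  rw [invOf_eq_inv] at h
  rw [Polynomial.eval_map, h, Polynomial.eval₂_at_natCast]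
  simp

theorem p_final_one (h1 : S_J_ratio) : S_final_one := by
  intro ι _ _ b hb hN a
  obtain ⟨P, D, hD0, hv, hX⟩ := h1 b hb a
  obtain ⟨S, hS⟩ := hN a
  obtain ⟨f, hf⟩ := final_one_pigeon S (fun f q => ((f.eval q : ℕ) : ℚ)
    = (q : ℚ) ^ be b a * (vpm b ((q : ℚ)⁻¹) a ^ 2 * J b ((q : ℚ)⁻¹) a)) hS
  set e := be b a with he
  set n := f.natDegree with hn
  set g : ℚ[X] := f.reverse.map (Nat.castRingHom ℚ) with hg
  set W : ℚ[X] := final_one_W b a ^ 2 with hW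
  have hid : X ^ e * (g * D) = X ^ n * (W * P) := by
    refine Polynomial.eq_of_infinite_eval_eq _ _ ?_
    have hinj : Set.InjOn (fun q : ℕ => ((q : ℚ)⁻¹))
        {q : ℕ | q.Prime ∧ ((f.eval q : ℕ) : ℚ)
          = (q : ℚ) ^ e * (vpm b ((q : ℚ)⁻¹) a ^ 2 * J b ((q : ℚ)⁻¹) a)} := by
      intro q _ q' _ h
      simpa using h
    refine (hf.image hinj).mono ?_
    rintro v ⟨q, ⟨hq, hqf⟩, rfl⟩
    have hq0 : (q : ℚ) ≠ 0 := by exact_mod_cast hq.ne_zero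
    have hq1 : (1 : ℚ) < q := by exact_mod_cast hq.one_lt
    obtain ⟨hD, hJ⟩ := hv ((q : ℚ)⁻¹) (by positivity) (inv_lt_one_of_one_lt₀ hq1)
    rw [final_one_rev f q hq.ne_zero, hJ] at hqf
    simp only [Set.mem_ofPred_eq, eval_mul, eval_pow, eval_X, hW, final_one_W_eval]
    rw [← hg, ← hn] at hqf
    have h2 : g.eval ((q : ℚ)⁻¹) * (q : ℚ) ^ n * D.eval ((q : ℚ)⁻¹)
        = (q : ℚ) ^ e * (vpm b ((q : ℚ)⁻¹) a ^ 2 * P.eval ((q : ℚ)⁻¹)) := by
      rw [hqf, mul_assoc, mul_assoc, div_mul_cancel₀ _ hD]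
    have hn1 : ((q : ℚ)⁻¹) ^ n * (q : ℚ) ^ n = 1 := by
      rw [← mul_pow, inv_mul_cancel₀ hq0, one_pow]
    have he1 : ((q : ℚ)⁻¹) ^ e * (q : ℚ) ^ e = 1 := by
      rw [← mul_pow, inv_mul_cancel₀ hq0, one_pow]
    calc ((q : ℚ)⁻¹) ^ e * (g.eval ((q : ℚ)⁻¹) * D.eval ((q : ℚ)⁻¹))
        = ((q : ℚ)⁻¹) ^ e * (((q : ℚ)⁻¹) ^ n * (q : ℚ) ^ n)
            * (g.eval ((q : ℚ)⁻¹) * D.eval ((q : ℚ)⁻¹)) := by rw [hn1, mul_one]
      _ = ((q : ℚ)⁻¹) ^ e * ((q : ℚ)⁻¹) ^ n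
            * (g.eval ((q : ℚ)⁻¹) * (q : ℚ) ^ n * D.eval ((q : ℚ)⁻¹)) := by ring
      _ = ((q : ℚ)⁻¹) ^ e * ((q : ℚ)⁻¹) ^ n
            * ((q : ℚ) ^ e * (vpm b ((q : ℚ)⁻¹) a ^ 2 * P.eval ((q : ℚ)⁻¹))) := by rw [h2]
      _ = (((q : ℚ)⁻¹) ^ e * (q : ℚ) ^ e) * ((q : ℚ)⁻¹) ^ n
            * (vpm b ((q : ℚ)⁻¹) a ^ 2 * P.eval ((q : ℚ)⁻¹)) := by ring
      _ = _ := by rw [he1, one_mul]
  have hDne : D ≠ 0 := by
    rintro rfl
    simp at hD0
  have hDne' : algebraMap ℚ[X] (RatFunc ℚ) D ≠ 0 := by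
    simpa using hDne
  by_cases hf0 : f = 0
  · refine ⟨0, ?_⟩
    have hg0 : g = 0 := by simp [hg, hf0]
    rw [hg0, zero_mul, mul_zero] at hid
    have hWP : W * P = 0 := by
      rcases mul_eq_zero.1 hid.symm with h | h
      · exact absurd h (pow_ne_zero _ X_ne_zero)
      · exact h
    rw [hX, ← final_one_W_rat, ← map_pow, ← hW, ← mul_div_assoc, ← map_mul, hWP]
    simp
  · have hg0 : g.eval 0 ≠ 0 := by
      rw [← Polynomial.coeff_zero_eq_eval_zero, hg, Polynomial.coeff_map,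
        Polynomial.coeff_zero_reverse]
      simpa using hf0
    have hne : n ≤ e := by
      by_contra hlt
      push Not at hlt
      obtain ⟨k, hk⟩ : ∃ k, n = e + (k + 1) := ⟨n - e - 1, by omega⟩
      rw [hk, pow_add, mul_assoc] at hid
      have h3 := mul_left_cancel₀ (pow_ne_zero e X_ne_zero) hid
      have h4 := congrArg (Polynomial.eval 0) h3
      simp only [eval_mul, eval_pow, eval_X, hD0, mul_one] at h4
      rw [zero_pow (Nat.succ_ne_zero k), zero_mul] at h4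
      exact hg0 h4
    obtain ⟨k, hk⟩ : ∃ k, e = n + k := ⟨e - n, by omega⟩
    rw [hk, pow_add, mul_assoc] at hid
    have h3 := mul_left_cancel₀ (pow_ne_zero n X_ne_zero) hid
    refine ⟨X ^ k * f.reverse, ?_⟩
    rw [hX, ← final_one_W_rat, ← map_pow, ← hW, ← mul_div_assoc, ← map_mul, ← h3,
      div_eq_iff hDne', ← map_mul, Polynomial.map_mul, Polynomial.map_pow, Polynomial.map_X,
      ← hg, mul_assoc]

end J4c
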