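import Pool.Agent.Lib.J4c.NumStm

/-!
MP_4c1f79_al, piece gb_vp: Gaussian binomials in terms of `(v)_n`, `v = 1/q`.
-/

set_option autoImplicit false
set_option linter.unusedVariables false

namespace J4c

private theorem gb_vp_zero (q n : ℕ) : gb q n 0 = 1 := by
  cases n <;> rfl

private theorem gb_vp_lt (q : ℕ) : ∀ n k : ℕ, n < k → gb q n k = 0 := by
  intro n
  induction n with
  | zero =>
    intro k hk
    obtain ⟨j, rfl⟩ : ∃ j, k = j + 1 := ⟨k - 1, by omega⟩
    rfl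
  | succ n ih =>
    intro k hk
    obtain ⟨j, rfl⟩ : ∃ j, k = j + 1 := ⟨k - 1, by omega⟩
    have h1 : gb q (n + 1) (j + 1) = q ^ (j + 1) * gb q n (j + 1) + gb q n j := rfl
    rw [h1, ih (j + 1) (by omega), ih j (by omega), mul_zero, add_zero]

private theorem gb_vp_self (q : ℕ) : ∀ n : ℕ, gb q n n = 1 := by
  intro n
  induction n with
  | zero => rfl
  | succ n ih =>
    have h1 : gb q (n + 1) (n + 1) = q ^ (n + 1) * gb q n (n + 1) + gb q n n := rfl
    rw [h1, ih, gb_vp_lt q n (n + 1) (Nat.lt_succ_self n), mul_zero, zero_add]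

private theorem gb_vp_succ (v : ℚ) (n : ℕ) : vp v (n + 1) = vp v n * (1 - v ^ (n + 1)) := by
  unfold vp
  rw [Finset.prod_range_succ]

private theorem gb_vp_aux (q : ℕ) (v : ℚ) (hv : (q : ℚ) * v = 1) : ∀ k m : ℕ,
    (gb q (k + m) k : ℚ) * (vp v k * vp v m) = (q : ℚ) ^ (k * m) * vp v (k + m) := by
  intro k
  induction k with
  | zero =>
    intro m
    rw [gb_vp_zero]
    simp [vp]
  | succ k ihk =>
    intro m
    induction m with
    | zero =>
      rw [Nat.add_zero, gb_vp_self]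
      simp [vp]
    | succ m ihm =>
      have h1 : gb q (k + 1 + (m + 1)) (k + 1) =
          q ^ (k + 1) * gb q (k + 1 + m) (k + 1) + gb q (k + 1 + m) k := rfl
      have h2 := ihk (m + 1)
      have e : k + (m + 1) = k + 1 + m := by omega
      rw [e] at h2
      rw [h1]
      push_cast
      have h3 : vp v (k + 1 + (m + 1)) = vp v (k + 1 + m) * (1 - v ^ (k + 1 + m + 1)) :=
        gb_vp_succ v (k + 1 + m)
      rw [h3]
      rw [gb_vp_succ v m] at h2 ⊢
      rw [gb_vp_succ v k] at ihm ⊢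
      have hp : (q : ℚ) ^ (m + 1) * v ^ (m + 1) = 1 := by
        rw [← mul_pow, hv, one_pow]
      have e1 : (q : ℚ) ^ ((k + 1) * (m + 1)) = (q : ℚ) ^ (k * (m + 1)) * (q : ℚ) ^ (m + 1) := by
        rw [← pow_add]
        congr 1
        ring
      have e2 : (q : ℚ) ^ ((k + 1) * (m + 1)) = (q : ℚ) ^ (k + 1) * (q : ℚ) ^ ((k + 1) * m) := by
        rw [← pow_add]
        congr 1
        ring
      have e3 : v ^ (k + 1 + m + 1) = v ^ (k + 1) * v ^ (m + 1) := by
        rw [← pow_add]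
        congr 1
      rw [e3]
      calc ((q : ℚ) ^ (k + 1) * (gb q (k + 1 + m) (k + 1) : ℚ) + (gb q (k + 1 + m) k : ℚ)) *
            (vp v k * (1 - v ^ (k + 1)) * (vp v m * (1 - v ^ (m + 1))))
          = (q : ℚ) ^ (k + 1) * (1 - v ^ (m + 1)) * ((gb q (k + 1 + m) (k + 1) : ℚ) *
              (vp v k * (1 - v ^ (k + 1)) * vp v m)) + (1 - v ^ (k + 1)) *
              ((gb q (k + 1 + m) k : ℚ) * (vp v k * (vp v m * (1 - v ^ (m + 1))))) := by ring
        _ = (q : ℚ) ^ (k + 1) * (1 - v ^ (m + 1)) * ((q : ℚ) ^ ((k + 1) * m) * vp v (k + 1 + m)) +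
              (1 - v ^ (k + 1)) * ((q : ℚ) ^ (k * (m + 1)) * vp v (k + 1 + m)) := by
            rw [ihm, h2]
        _ = ((q : ℚ) ^ (k + 1) * (q : ℚ) ^ ((k + 1) * m)) * (1 - v ^ (m + 1)) *
              vp v (k + 1 + m) +
              (1 - v ^ (k + 1)) * ((q : ℚ) ^ (k * (m + 1)) * vp v (k + 1 + m)) := by ring
        _ = (q : ℚ) ^ (k * (m + 1)) * vp v (k + 1 + m) *
              ((q : ℚ) ^ (m + 1) - (q : ℚ) ^ (m + 1) * v ^ (m + 1) + 1 - v ^ (k + 1)) := by
            rw [← e2, e1]; ring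
        _ = (q : ℚ) ^ (k * (m + 1)) * vp v (k + 1 + m) *
              ((q : ℚ) ^ (m + 1) - v ^ (k + 1) * ((q : ℚ) ^ (m + 1) * v ^ (m + 1))) := by
            rw [hp]; ring
        _ = (q : ℚ) ^ ((k + 1) * (m + 1)) *
              (vp v (k + 1 + m) * (1 - v ^ (k + 1) * v ^ (m + 1))) := by
            rw [e1]; ring

theorem p_gb_vp : S_gb_vp := by
  intro q hq n k hk
  have hq0 : (q : ℚ) ≠ 0 := by
    have : q ≠ 0 := by omega
    exact_mod_cast this
  have hv : (q : ℚ) * (q : ℚ)⁻¹ = 1 := mul_inv_cancel₀ hq0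
  have hvp : ∀ j : ℕ, vp ((q : ℚ)⁻¹) j ≠ 0 := by
    intro j
    unfold vp
    rw [Finset.prod_ne_zero_iff]
    intro i _ h
    have h1 : ((q : ℚ)⁻¹) ^ (i + 1) = 1 := by linarith
    have h2 : ((q : ℚ)⁻¹) ^ (i + 1) < 1 := by
      apply pow_lt_one₀
      · positivity
      · apply inv_lt_one_of_one_lt₀
        have : 1 < q := by omega
        exact_mod_cast this
      · omega
    rw [h1] at h2
    exact lt_irrefl _ h2
  obtain ⟨m, rfl⟩ : ∃ m, n = k + m := ⟨n - k, by omega⟩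
  rw [Nat.add_sub_cancel_left, eq_div_iff (mul_ne_zero (hvp k) (hvp m))]
  exact gb_vp_aux q _ hv k m

end J4c
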