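import Pool.Agent.Lib.J4c.NumStm

set_option autoImplicit false

namespace J4c

theorem p_gb_zero : S_gb_zero := by
  intro q n
  induction n with
  | zero =>
    intro k h
    obtain ⟨m, rfl⟩ : ∃ m, k = m + 1 := ⟨k - 1, by omega⟩
    rfl
  | succ n ih =>
    intro k h
    obtain ⟨m, rfl⟩ : ∃ m, k = m + 1 := ⟨k - 1, by omega⟩
    show q ^ (m + 1) * gb q n (m + 1) + gb q n m = 0
    rw [ih (m + 1) (by omega), ih m (by omega), mul_zero]

end J4c
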