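import Pool.Agent.Lib.J4c.NumStm

/-! Piece J4 good_A: the forms of type A. -/

set_option autoImplicit false

namespace J4c

/-- the sum of the entries of a tridiagonal row -/
private theorem good_A_sum (n : ℕ) (w : ℕ → ℤ) (i : ℕ) (hi : i < n + 1) (hw : w (n + 1) = 0) :
    ∑ j : Fin (n + 1), ((if (j : ℕ) = i then 2 * w j else 0) - (if (j : ℕ) = i + 1 then w j else 0)
      - (if (j : ℕ) + 1 = i then w j else 0))
      = 2 * w i - w (i + 1) - (if i = 0 then 0 else w (i - 1)) := by
  rw [← Finset.sum_range (fun k : ℕ => (if k = i then 2 * w k else 0)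
    - (if k = i + 1 then w k else 0) - (if k + 1 = i then w k else 0))]
  rw [Finset.sum_sub_distrib, Finset.sum_sub_distrib]
  have h1 : ∑ k ∈ Finset.range (n + 1), (if k = i then 2 * w k else 0) = 2 * w i := by
    rw [Finset.sum_ite_eq', if_pos (Finset.mem_range.2 hi)]
  have h2 : ∑ k ∈ Finset.range (n + 1), (if k = i + 1 then w k else 0) = w (i + 1) := by
    rw [Finset.sum_ite_eq']
    split_ifs with h
    · rfl
    · have : i + 1 = n + 1 := by
        rw [Finset.mem_range] at h
        omega
      rw [this, hw]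
  have h3 : ∑ k ∈ Finset.range (n + 1), (if k + 1 = i then w k else 0)
      = if i = 0 then 0 else w (i - 1) := by
    rcases Nat.eq_zero_or_pos i with h | h
    · rw [if_pos h]
      refine Finset.sum_eq_zero fun k _ => ?_
      rw [if_neg (by omega)]
    · rw [if_neg (by omega)]
      have h4 : ∀ k ∈ Finset.range (n + 1), (if k + 1 = i then w k else 0)
          = if k = i - 1 then w k else 0 := by
        intro k _
        by_cases hk : k + 1 = i
        · rw [if_pos hk, if_pos (by omega)]
        · rw [if_neg hk, if_neg (by omega)]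
      rw [Finset.sum_congr rfl h4, Finset.sum_ite_eq', if_pos (Finset.mem_range.2 (by omega))]
  rw [h1, h2, h3]

private theorem good_A_form (n : ℕ) (i j : Fin (n + 1)) :
    (DT.A n).form i j = if (i : ℕ) = j then 2
      else if (i : ℕ) + 1 = j ∨ (j : ℕ) + 1 = i then -1 else 0 := by
  show (CartanMatrix.A (n + 1)) i j * ((1 : ℕ) : ℤ) = _
  rw [Nat.cast_one, mul_one]
  simp only [CartanMatrix.A, Matrix.of_apply, Fin.ext_iff]

theorem p_good_A (h1 : S_good_of_vec) : S_good_A := by
  intro n
  refine h1 (ι := Fin (n + 1)) (DT.A n).form ?_ ?_ ?_ ?_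
    (fun j : Fin (n + 1) => ((j : ℤ) + 1) * ((n : ℤ) + 1 - j)) ?_ ?_
  · intro i j
    rw [good_A_form, good_A_form]
    by_cases h : (i : ℕ) = j
    · rw [if_pos h, if_pos h.symm]
    · rw [if_neg h, if_neg (Ne.symm h)]
      by_cases h' : (i : ℕ) + 1 = j ∨ (j : ℕ) + 1 = i
      · rw [if_pos h', if_pos h'.symm]
      · rw [if_neg h', if_neg (fun h2 => h' h2.symm)]
  · intro i
    rw [good_A_form, if_pos rfl]
  · intro i
    rw [good_A_form, if_pos rfl]
    norm_num
  · intro i j hij
    rw [good_A_form, if_neg (fun h => hij (Fin.ext h))]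
    split_ifs <;> norm_num
  · intro i
    have h2 : ((i : ℕ) : ℤ) < (n : ℤ) + 1 := by exact_mod_cast i.2
    have h3 : (0 : ℤ) ≤ ((i : ℕ) : ℤ) := Int.natCast_nonneg _
    show (0 : ℤ) < (((i : ℕ) : ℤ) + 1) * ((n : ℤ) + 1 - ((i : ℕ) : ℤ))
    exact mul_pos (by linarith) (by linarith)
  · intro i
    set w : ℕ → ℤ := fun k => ((k : ℤ) + 1) * ((n : ℤ) + 1 - k) with hw
    have h2 : ∀ j : Fin (n + 1), (DT.A n).form i j * (((j : ℤ) + 1) * ((n : ℤ) + 1 - j))
        = (if (j : ℕ) = i then 2 * w j else 0) - (if (j : ℕ) = i + 1 then w j else 0)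
          - (if (j : ℕ) + 1 = i then w j else 0) := by
      intro j
      rw [good_A_form]
      show _ * w j = _
      by_cases h3 : (i : ℕ) = j
      · rw [if_pos h3, if_pos h3.symm, if_neg (by omega), if_neg (by omega)]
        ring
      · rw [if_neg h3, if_neg (Ne.symm h3)]
        by_cases h4 : (i : ℕ) + 1 = j
        · rw [if_pos (Or.inl h4), if_pos h4.symm, if_neg (by omega)]
          ring
        · rw [if_neg (Ne.symm h4)]
          by_cases h5 : (j : ℕ) + 1 = i
          · rw [if_pos (Or.inr h5), if_pos h5]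
            ring
          · rw [if_neg (not_or.2 ⟨h4, h5⟩), if_neg h5]
            ring
    rw [Finset.sum_congr rfl (fun j _ => h2 j), good_A_sum n w i i.2 (by rw [hw]; push_cast; ring)]
    rcases Nat.eq_zero_or_pos (i : ℕ) with h | h
    · rw [h, if_pos rfl, hw]
      push_cast
      ring_nf
      norm_num
    · obtain ⟨m, hm⟩ : ∃ m, (i : ℕ) = m + 1 := ⟨(i : ℕ) - 1, by omega⟩
      rw [hm, if_neg (by omega), Nat.add_sub_cancel, hw]
      push_cast
      ring_nf
      norm_num

end J4c
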