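import Pool.Agent.Lib.J4c.NumStm

/-!
MP_4c1f79_al, piece good_C: the form of type `C`.
-/

set_option autoImplicit false
set_option linter.unusedVariables false

namespace J4c

/-- a sum with at most three nonzero terms -/
theorem good_C_tri (N i : ℕ) (hi : i < N) (f : ℕ → ℤ)
    (hf : ∀ j, j ≠ i → j ≠ i + 1 → j + 1 ≠ i → f j = 0) :
    ∑ j ∈ Finset.range N, f j =
      f i + (if i + 1 < N then f (i + 1) else 0) + (if 0 < i then f (i - 1) else 0) := by
  have h1 : ∀ j ∈ Finset.range N, f j = ((if j = i then f i else 0) +
      (if j = i + 1 then f (i + 1) else 0)) + (if j = i - 1 then (if 0 < i then f (i - 1) else 0)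
        else 0) := by
    intro j _
    by_cases h2 : j = i
    · subst h2
      by_cases h3 : 0 < j
      · have h4 : j ≠ j - 1 := by omega
        simp [h4]
      · have h4 : j = 0 := by omega
        subst h4
        simp
    · by_cases h3 : j = i + 1
      · subst h3
        have h4 : i + 1 ≠ i - 1 := by omega
        simp [h4]
      · by_cases h4 : j + 1 = i
        · subst h4
          have h5 : j ≠ j + 1 + 1 := by omega
          simp [h5]
        · rw [hf j h2 h3 h4]
          have h5 : j ≠ i - 1 ∨ ¬ 0 < i := by omega
          rcases h5 with h5 | h5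
          · simp [h2, h3, h5]
          · simp [h2, h3, h5]
  rw [Finset.sum_congr rfl h1, Finset.sum_add_distrib, Finset.sum_add_distrib,
    Finset.sum_ite_eq', Finset.sum_ite_eq', Finset.sum_ite_eq']
  have h6 : i - 1 < N := by omega
  simp only [Finset.mem_range, hi, h6, if_true]

/-- the entries of the form of type `C` -/
def good_C_b (n i j : ℕ) : ℤ :=
  if i = j then (if i = n + 2 then 4 else 2)
  else if i + 1 = j then (if j = n + 2 then -2 else -1)
  else if j + 1 = i then (if i = n + 2 then -2 else -1)
  else 0

/-- the vector -/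
def good_C_v (n j : ℕ) : ℤ :=
  if j = n + 2 then ((n : ℤ) + 3) * (n + 4) else 2 * ((j : ℤ) + 1) * (2 * (n + 3) - j)

theorem good_C_form (n : ℕ) (i j : Fin (DT.C n).rank) :
    (DT.C n).form i j = good_C_b n i.val j.val := by
  have hi : i.val < n + 3 := i.2
  have hj : j.val < n + 3 := j.2
  have h0 : ((i = j : Prop)) = (i.val = j.val) := by
    rw [Fin.ext_iff]
  have h1 : (DT.C n).form i j = (if i.val = j.val then (2 : ℤ)
      else if i.val + 1 = j.val then -1
      else if j.val + 1 = i.val then
        if i.val = n + 3 - 1 then -2 else -1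
      else 0) * ((if j.val = n + 2 then 2 else 1 : ℕ) : ℤ) := by
    have h2 : (DT.C n).form i j = (if i = j then (2 : ℤ)
      else if i.val + 1 = j.val then -1
      else if j.val + 1 = i.val then
        if i.val = n + 3 - 1 then -2 else -1
      else 0) * ((if j.val = n + 2 then 2 else 1 : ℕ) : ℤ) := rfl
    rw [h2]
    congr 1
    by_cases h : i = j
    · rw [if_pos h, if_pos (by rw [h])]
    · rw [if_neg h, if_neg (fun h' => h (Fin.ext h'))]
  rw [h1]
  unfold good_C_b
  split_ifs <;> omega

theorem good_C_vpos (n i : ℕ) (hi : i < n + 3) : 0 < good_C_v n i := by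
  unfold good_C_v
  split_ifs
  · positivity
  · have h1 : (i : ℤ) < n + 3 := by exact_mod_cast hi
    have h2 : (0 : ℤ) ≤ i := by positivity
    have h3 : (0 : ℤ) < 2 * (n + 3) - i := by linarith
    positivity

theorem good_C_b0 (n i : ℕ) (h : i ≠ n + 2) : good_C_b n i i = 2 := by
  unfold good_C_b
  rw [if_pos rfl, if_neg h]

theorem good_C_b1 (n i : ℕ) (h : i + 1 ≠ n + 2) : good_C_b n i (i + 1) = -1 := by
  unfold good_C_b
  rw [if_neg (by omega), if_pos rfl, if_neg h]

theorem good_C_b2 (n i : ℕ) (h : i + 1 ≠ n + 2) : good_C_b n (i + 1) i = -1 := by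
  unfold good_C_b
  rw [if_neg (by omega), if_neg (by omega), if_pos rfl, if_neg h]

theorem good_C_v1 (n j : ℕ) (h : j ≠ n + 2) :
    good_C_v n j = 2 * ((j : ℤ) + 1) * (2 * (n + 3) - j) := by
  unfold good_C_v
  rw [if_neg h]

theorem good_C_sum (n i : ℕ) (hi : i < n + 3) :
    0 < ∑ j ∈ Finset.range (n + 3), good_C_b n i j * good_C_v n j := by
  rw [good_C_tri (n + 3) i hi]
  · have hN : (0 : ℤ) ≤ n := by positivity
    by_cases hC : i = n + 2
    · subst hC
      have e1 : ¬ (n + 2 + 1 < n + 3) := by omega
      have e2 : 0 < n + 2 := by omega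
      have e3 : n + 2 - 1 = n + 1 := by omega
      rw [if_neg e1, if_pos e2, e3, good_C_v1 n (n + 1) (by omega)]
      have e4 : good_C_b n (n + 2) (n + 2) = 4 := by
        unfold good_C_b
        rw [if_pos rfl, if_pos rfl]
      have e5 : good_C_b n (n + 2) (n + 1) = -2 := by
        unfold good_C_b
        rw [if_neg (by omega), if_neg (by omega), if_pos rfl, if_pos rfl]
      have e6 : good_C_v n (n + 2) = ((n : ℤ) + 3) * (n + 4) := by
        unfold good_C_v
        rw [if_pos rfl]
      rw [e4, e5, e6]
      push_cast
      nlinarith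
    · by_cases hB : i = n + 1
      · subst hB
        have e1 : n + 1 + 1 < n + 3 := by omega
        have e2 : 0 < n + 1 := by omega
        have e3 : n + 1 - 1 = n := by omega
        rw [if_pos e1, if_pos e2, e3, good_C_v1 n (n + 1) (by omega), good_C_v1 n n (by omega),
          good_C_b0 n _ (by omega), good_C_b2 n n (by omega)]
        have e5 : good_C_b n (n + 1) (n + 1 + 1) = -2 := by
          unfold good_C_b
          rw [if_neg (by omega), if_pos rfl, if_pos rfl]
        have e6 : good_C_v n (n + 1 + 1) = ((n : ℤ) + 3) * (n + 4) := by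
          unfold good_C_v
          rw [if_pos rfl]
        rw [e5, e6]
        push_cast
        nlinarith
      · have e1 : i + 1 < n + 3 := by omega
        rw [if_pos e1, good_C_b0 n i hC, good_C_b1 n i (by omega), good_C_v1 n i hC,
          good_C_v1 n (i + 1) (by omega)]
        by_cases hA : 0 < i
        · obtain ⟨k, rfl⟩ : ∃ k, i = k + 1 := ⟨i - 1, by omega⟩
          have e3 : k + 1 - 1 = k := by omega
          rw [if_pos hA, e3, good_C_b2 n k (by omega), good_C_v1 n k (by omega)]
          push_cast
          nlinarith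
        · have e4 : i = 0 := by omega
          subst e4
          rw [if_neg hA]
          push_cast
          nlinarith
  · intro j h1 h2 h3
    unfold good_C_b
    rw [if_neg (fun h => h1 h.symm), if_neg (fun h => h2 h.symm), if_neg h3, zero_mul]

theorem p_good_C (h1 : S_good_of_vec) : S_good_C := by
  intro n
  apply h1 (DT.C n).form ?_ ?_ ?_ ?_ (fun i => good_C_v n i.val)
  · intro i
    exact good_C_vpos n i.val i.2
  · intro i
    have h2 : ∑ j : Fin (DT.C n).rank, (DT.C n).form i j * good_C_v n j.val =
        ∑ j : Fin (n + 3), good_C_b n i.val j.val * good_C_v n j.val := by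
      apply Finset.sum_congr rfl
      intro j _
      rw [good_C_form]
    rw [h2, Fin.sum_univ_eq_sum_range (fun j => good_C_b n i.val j * good_C_v n j) (n + 3)]
    exact good_C_sum n i.val i.2
  · intro i j
    rw [good_C_form, good_C_form]
    unfold good_C_b
    split_ifs <;> omega
  · intro i
    rw [good_C_form]
    unfold good_C_b
    split_ifs <;> omega
  · intro i
    rw [good_C_form]
    unfold good_C_b
    split_ifs <;> omega
  · intro i j hij
    have h3 : i.val ≠ j.val := fun h => hij (Fin.ext h)
    rw [good_C_form]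
    unfold good_C_b
    split_ifs <;> omega

end J4c
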