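import Pool.Agent.Lib.J4c.NumStm

/-!
MP_4c1f79_al: the form of `D_n` is good.
-/

set_option autoImplicit false
set_option linter.unusedVariables false

namespace J4c

private def good_D_V (n j : ℕ) : ℤ :=
  if j < n + 2 then 2 * ((j : ℤ) + 1) * (2 * (n : ℤ) + 6 - j) else ((n : ℤ) + 4) * ((n : ℤ) + 3)

private def good_D_e (n i j : ℕ) : ℤ :=
  if i = j then 2
  else if i + 1 = j ∧ j + 2 < n + 4 then -1
  else if j + 1 = i ∧ i + 2 < n + 4 then -1
  else if i + 3 = n + 4 ∧ (j + 2 = n + 4 ∨ j + 1 = n + 4) then -1
  else if j + 3 = n + 4 ∧ (i + 2 = n + 4 ∨ i + 1 = n + 4) then -1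
  else 0

private theorem good_D_form (n : ℕ) (i j : Fin (DT.D n).rank) :
    (DT.D n).form i j = good_D_e n i.val j.val := by
  have h4 : ¬ (n + 4 ≤ 2) := by omega
  simp only [DT.form, DT.cartan, DT.len, CartanMatrix.D, Matrix.of_apply, good_D_e, Nat.cast_one,
    mul_one, if_neg h4, Fin.ext_iff]

private theorem good_D_split (n i j : ℕ) (hi : i < n + 4) (hj : j < n + 4) :
    good_D_e n i j * good_D_V n j =
      (if j = i then 2 * good_D_V n i else 0) +
      (if j = i + 1 then (if i < n + 1 then - good_D_V n (i + 1) else 0) else 0) +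
      (if j = i - 1 then (if 1 ≤ i ∧ i < n + 2 then - good_D_V n (i - 1) else 0) else 0) +
      (if j = n + 2 then (if i = n + 1 then - good_D_V n (n + 2) else 0) else 0) +
      (if j = n + 3 then (if i = n + 1 then - good_D_V n (n + 3) else 0) else 0) +
      (if j = n + 1 then (if n + 2 ≤ i then - good_D_V n (n + 1) else 0) else 0) := by
  unfold good_D_e
  split_ifs <;> first
    | omega
    | (subst_vars; simp; done)
    | (have : j = n + 1 := by omega
       subst this; simp)

private theorem good_D_row (n i : ℕ) (hi : i < n + 4) :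
    0 < ∑ j ∈ Finset.range (n + 4), good_D_e n i j * good_D_V n j := by
  rw [Finset.sum_congr rfl fun j hj => good_D_split n i j hi (Finset.mem_range.1 hj)]
  simp only [Finset.sum_add_distrib, Finset.sum_ite_eq', Finset.mem_range]
  have e1 : i - 1 < n + 4 := by omega
  have e2 : n + 2 < n + 4 := by omega
  have e3 : n + 3 < n + 4 := by omega
  have e4 : n + 1 < n + 4 := by omega
  simp only [hi, e1, e2, e3, e4, if_true]
  rcases lt_or_ge i (n + 1) with h | h
  · have a1 : i + 1 < n + 4 := by omega
    have a2 : i < n + 2 := by omega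
    have a3 : ¬ i = n + 1 := by omega
    have a4 : ¬ n + 2 ≤ i := by omega
    have a5 : i + 1 < n + 2 := by omega
    have a6 : i - 1 < n + 2 := by omega
    simp only [a1, h, a2, a3, a4, if_true, if_false, and_true, add_zero, good_D_V, a5, a6]
    rcases Nat.eq_zero_or_pos i with h0 | h0
    · subst h0
      simp only [Nat.cast_zero, Nat.zero_add, Nat.cast_one]
      norm_num
      nlinarith
    · have b1 : 1 ≤ i := h0
      obtain ⟨k, rfl⟩ : ∃ k, i = k + 1 := ⟨i - 1, by omega⟩
      simp only [b1, if_true, Nat.add_sub_cancel]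
      push_cast
      nlinarith
  · rcases Nat.eq_or_lt_of_le h with h' | h'
    · subst h'
      have a1 : ¬ (n + 1 < n + 1) := by omega
      have a2 : n + 1 < n + 2 := by omega
      have a4 : ¬ n + 2 ≤ n + 1 := by omega
      have a5 : 1 ≤ n + 1 := by omega
      have a6 : n < n + 2 := by omega
      have a7 : ¬ (n + 2 < n + 2) := by omega
      have a8 : ¬ (n + 3 < n + 2) := by omega
      simp only [a1, a2, a4, a5, if_true, if_false, and_true, add_zero, good_D_V, a6, a7, a8,
        Nat.add_sub_cancel, ite_self]
      push_cast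
      nlinarith
    · have a1 : ¬ (i < n + 1) := by omega
      have a2 : ¬ (i < n + 2) := by omega
      have a3 : ¬ i = n + 1 := by omega
      have a4 : n + 2 ≤ i := by omega
      have a5 : n + 1 < n + 2 := by omega
      simp only [a1, a2, a3, a4, if_true, if_false, and_false, add_zero, good_D_V, a5, ite_self]
      push_cast
      nlinarith

theorem p_good_D (h1 : S_good_of_vec) : S_good_D := by
  intro n
  refine h1 (DT.D n).form ?_ ?_ ?_ ?_ (fun i => good_D_V n i.val) ?_ ?_
  · intro i j
    rw [good_D_form, good_D_form]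
    unfold good_D_e
    split_ifs <;> first | rfl | omega
  · intro i
    rw [good_D_form]
    simp [good_D_e]
  · intro i
    rw [good_D_form]
    simp [good_D_e]
  · intro i j hij
    rw [good_D_form]
    have : i.val ≠ j.val := fun h => hij (Fin.ext h)
    unfold good_D_e
    split_ifs <;> omega
  · intro i
    have hi : i.val < n + 4 := i.isLt
    show 0 < good_D_V n i.val
    unfold good_D_V
    split_ifs with h
    · have h2 : (i.val : ℤ) < n + 2 := by exact_mod_cast h
      have h3 : (0 : ℤ) ≤ (i.val : ℤ) := by positivity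
      have h4 : (0 : ℤ) < 2 * (n : ℤ) + 6 - (i.val : ℤ) := by linarith
      positivity
    · positivity
  · intro i
    have hi : i.val < n + 4 := i.isLt
    have hs : ∑ j : Fin (DT.D n).rank, (DT.D n).form i j * good_D_V n j.val =
        ∑ j ∈ Finset.range (n + 4), good_D_e n i.val j * good_D_V n j := by
      rw [Finset.sum_congr rfl fun j _ => by rw [good_D_form]]
      exact Fin.sum_univ_eq_sum_range (fun j => good_D_e n i.val j * good_D_V n j) (n + 4)
    rw [hs]
    exact good_D_row n i.val hi

end J4c
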