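import Pool.Agent.Lib.J4c.NumStm

set_option autoImplicit false

namespace J4c

private def good_exc_E6 (i j : Fin 6) : ℤ := CartanMatrix.E₆ i j * ((1 : ℕ) : ℤ)

private def good_exc_E7 (i j : Fin 7) : ℤ := CartanMatrix.E₇ i j * ((1 : ℕ) : ℤ)

private def good_exc_E8 (i j : Fin 8) : ℤ := CartanMatrix.E₈ i j * ((1 : ℕ) : ℤ)

private def good_exc_F4 (i j : Fin 4) : ℤ := CartanMatrix.F₄ i j * ((![2, 2, 1, 1] j : ℕ) : ℤ)

private def good_exc_G2 (i j : Fin 2) : ℤ := CartanMatrix.G₂ i j * ((![3, 1] j : ℕ) : ℤ)

theorem p_good_exc (h1 : S_good_of_vec) : S_good_exc := by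
  refine ⟨?_, ?_, ?_, ?_, ?_⟩
  · have h : GoodForm good_exc_E6 := h1 _ (by decide) (by decide) (by decide) (by decide)
      ![16, 22, 30, 42, 30, 16] (by decide) (by decide)
    exact h
  · have h : GoodForm good_exc_E7 := h1 _ (by decide) (by decide) (by decide) (by decide)
      ![34, 49, 66, 96, 75, 52, 27] (by decide) (by decide)
    exact h
  · have h : GoodForm good_exc_E8 := h1 _ (by decide) (by decide) (by decide) (by decide)
      ![92, 136, 182, 270, 220, 168, 114, 58] (by decide) (by decide)
    exact h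
  · have h : GoodForm good_exc_F4 := h1 _ (by decide) (by decide) (by decide) (by decide)
      ![16, 30, 42, 22] (by decide) (by decide)
    exact h
  · have h : GoodForm good_exc_G2 := h1 _ (by decide) (by decide) (by decide) (by decide)
      ![6, 10] (by decide) (by decide)
    exact h

end J4c
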