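import Pool.Agent.Lib.J4c.NumStm

/-!
MP_4c1f79_al, piece good_of_vec: a criterion for `GoodForm`.
-/

set_option autoImplicit false
set_option linter.unusedVariables false

namespace J4c

theorem good_of_vec_even {ι : Type} [Fintype ι] [DecidableEq ι] (b : ι → ι → ℤ)
    (symm : ∀ i j, b i j = b j i) (even : ∀ i, 2 ∣ b i i) (a : ι → ℕ) :
    (2 : ℤ) ∣ ∑ i, ∑ j, b i j * (a i : ℤ) * (a j : ℤ) := by
  have h0 : ((∑ i, ∑ j, b i j * (a i : ℤ) * (a j : ℤ) : ℤ) : ZMod 2) = 0 := by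
    push_cast
    have h1 := Fintype.sum_prod_type
      (fun x : ι × ι => (b x.1 x.2 : ZMod 2) * (a x.1 : ZMod 2) * (a x.2 : ZMod 2))
    simp only at h1
    rw [← h1]
    refine Finset.sum_involution (fun x _ => (x.2, x.1)) ?_ ?_ ?_ ?_
    · intro x _
      simp only
      rw [symm x.2 x.1]
      have : (b x.1 x.2 : ZMod 2) * (a x.1 : ZMod 2) * (a x.2 : ZMod 2) +
        (b x.1 x.2 : ZMod 2) * (a x.2 : ZMod 2) * (a x.1 : ZMod 2) =
        2 * ((b x.1 x.2 : ZMod 2) * (a x.1 : ZMod 2) * (a x.2 : ZMod 2)) := by ring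
      rw [this]
      have h2 : (2 : ZMod 2) = 0 := rfl
      rw [h2, zero_mul]
    · intro x _ hx hxx
      have h2 : x.2 = x.1 := congrArg Prod.fst hxx
      apply hx
      have h3 : ((b x.1 x.1 : ℤ) : ZMod 2) = 0 :=
        (ZMod.intCast_zmod_eq_zero_iff_dvd _ 2).2 (by exact_mod_cast even x.1)
      rw [h2, h3, zero_mul, zero_mul]
    · intro x _
      exact Finset.mem_univ _
    · intro x _
      rfl
  exact_mod_cast (ZMod.intCast_zmod_eq_zero_iff_dvd _ 2).1 h0

theorem good_of_vec_pos {ι : Type} [Fintype ι] [DecidableEq ι] (b : ι → ι → ℤ)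
    (symm : ∀ i j, b i j = b j i) (nonpos : ∀ i j, i ≠ j → b i j ≤ 0)
    (v : ι → ℤ) (hv : ∀ i, 0 < v i) (hbv : ∀ i, 0 < ∑ j, b i j * v j) (a : ι → ℕ) (ha : a ≠ 0) :
    (0 : ℤ) < ∑ i, ∑ j, b i j * (a i : ℤ) * (a j : ℤ) := by
  obtain ⟨x, hx⟩ : ∃ x : ι → ℚ, ∀ i, (a i : ℚ) = x i * (v i : ℚ) := by
    refine ⟨fun i => (a i : ℚ) / (v i : ℚ), ?_⟩
    intro i
    have : (v i : ℚ) ≠ 0 := by
      have := (hv i).ne'
      exact_mod_cast this
    rw [div_mul_cancel₀ _ this]
  have hvq : ∀ i, (0 : ℚ) < v i := fun i => by exact_mod_cast hv i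
  have hq : (0 : ℚ) < ∑ i, ∑ j, (b i j : ℚ) * (a i : ℚ) * (a j : ℚ) := by
    have h1 : ∀ i j, (b i j : ℚ) * (v i : ℚ) * (v j : ℚ) * ((x i ^ 2 + x j ^ 2) / 2) ≤
        (b i j : ℚ) * (a i : ℚ) * (a j : ℚ) := by
      intro i j
      rw [hx i, hx j]
      by_cases hij : i = j
      · subst hij
        apply le_of_eq
        ring
      · have h2 : (b i j : ℚ) ≤ 0 := by exact_mod_cast nonpos i j hij
        have h3 : 0 ≤ (v i : ℚ) * (v j : ℚ) * ((x i - x j) ^ 2 / 2) := by
          have := hvq i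
          have := hvq j
          positivity
        nlinarith [mul_nonneg (neg_nonneg.2 h2) h3]
    have h2 : ∑ i, ∑ j, (b i j : ℚ) * (v i : ℚ) * (v j : ℚ) * ((x i ^ 2 + x j ^ 2) / 2) =
        ∑ i, x i ^ 2 * (v i : ℚ) * ∑ j, (b i j : ℚ) * (v j : ℚ) := by
      have h3 : ∑ i, ∑ j, (b i j : ℚ) * (v i : ℚ) * (v j : ℚ) * (x i ^ 2 / 2) =
          ∑ i, ∑ j, (b i j : ℚ) * (v i : ℚ) * (v j : ℚ) * (x j ^ 2 / 2) := by
        rw [Finset.sum_comm]
        apply Finset.sum_congr rfl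
        intro i _
        apply Finset.sum_congr rfl
        intro j _
        rw [symm j i]
        ring
      have h4 : ∑ i, ∑ j, (b i j : ℚ) * (v i : ℚ) * (v j : ℚ) * ((x i ^ 2 + x j ^ 2) / 2) =
          ∑ i, ∑ j, (b i j : ℚ) * (v i : ℚ) * (v j : ℚ) * (x i ^ 2 / 2) +
          ∑ i, ∑ j, (b i j : ℚ) * (v i : ℚ) * (v j : ℚ) * (x j ^ 2 / 2) := by
        rw [← Finset.sum_add_distrib]
        apply Finset.sum_congr rfl
        intro i _
        rw [← Finset.sum_add_distrib]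
        apply Finset.sum_congr rfl
        intro j _
        ring
      rw [h4, ← h3, ← Finset.sum_add_distrib]
      apply Finset.sum_congr rfl
      intro i _
      rw [← Finset.sum_add_distrib, Finset.mul_sum]
      apply Finset.sum_congr rfl
      intro j _
      ring
    have h5 : ∑ i, x i ^ 2 * (v i : ℚ) * ∑ j, (b i j : ℚ) * (v j : ℚ) ≤
        ∑ i, ∑ j, (b i j : ℚ) * (a i : ℚ) * (a j : ℚ) := by
      rw [← h2]
      apply Finset.sum_le_sum
      intro i _
      apply Finset.sum_le_sum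
      intro j _
      exact h1 i j
    refine lt_of_lt_of_le ?_ h5
    have hb' : ∀ i, (0 : ℚ) < ∑ j, (b i j : ℚ) * (v j : ℚ) := by
      intro i
      exact_mod_cast hbv i
    obtain ⟨i0, hi0⟩ : ∃ i, a i ≠ 0 := by
      by_contra h
      push Not at h
      exact ha (funext h)
    apply Finset.sum_pos'
    · intro i _
      have := hb' i
      have := hvq i
      positivity
    · refine ⟨i0, Finset.mem_univ _, ?_⟩
      have h6 : x i0 ≠ 0 := by
        intro h
        have h7 := hx i0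
        rw [h, zero_mul] at h7
        exact hi0 (by exact_mod_cast h7)
      have := hb' i0
      have := hvq i0
      positivity
  exact_mod_cast hq

theorem p_good_of_vec : S_good_of_vec := by
  intro ι _ _ b symm even pos nonpos v hv hbv
  refine ⟨symm, even, pos, nonpos, ?_⟩
  intro a ha
  have h1 := good_of_vec_even b symm even a
  have h2 := good_of_vec_pos b symm nonpos v hv hbv a ha
  unfold bq
  omega

end J4c
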