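import Pool.Agent.Lib.J4c.NumStm

/-!
MP_4c1f79_al, piece identity: the recursion for `v ^ e(a) A a / (v)_a ^ 2`.
-/

set_option autoImplicit false

namespace J4c

private theorem identity_gb_zero (q : ℕ) : ∀ n k : ℕ, n < k → gb q n k = 0
  | _, 0, h => absurd h (Nat.not_lt_zero _)
  | 0, k + 1, _ => by rw [gb]
  | n + 1, k + 1, h => by
    rw [gb, identity_gb_zero q n (k + 1) (by omega), identity_gb_zero q n k (by omega), mul_zero]

private theorem identity_bd_pos {ι : Type} [Fintype ι] [DecidableEq ι] (b : ι → ι → ℤ)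
    (hb : GoodForm b) (i : ι) : 0 < bd b i := by
  obtain ⟨c, hc⟩ := hb.even i
  have hp := hb.pos i
  unfold bd
  omega

private theorem identity_pow_lt {q : ℕ} (hq : 2 ≤ q) {n : ℕ} (hn : 0 < n) :
    ((q : ℚ)⁻¹) ^ n < 1 := by
  have h1 : (1 : ℚ) < q := by exact_mod_cast (by omega : 1 < q)
  exact pow_lt_one₀ (by positivity) (inv_lt_one_of_one_lt₀ h1) (by omega)

private theorem identity_vpm_ne {ι : Type} [Fintype ι] [DecidableEq ι] (b : ι → ι → ℤ)
    (hb : GoodForm b) {q : ℕ} (hq : 2 ≤ q) (a : ι → ℕ) : vpm b ((q : ℚ)⁻¹) a ≠ 0 := by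
  unfold vpm vp
  refine Finset.prod_ne_zero_iff.2 fun i _ => Finset.prod_ne_zero_iff.2 fun j _ => ?_
  rw [← pow_mul]
  have := identity_pow_lt hq (Nat.mul_pos (identity_bd_pos b hb i) (Nat.succ_pos j))
  exact (sub_pos.2 this).ne'

/-- grouping by the marks -/
private theorem identity_group {ι : Type} [Fintype ι] [DecidableEq ι] (b : ι → ι → ℤ) (q : ℕ)
    {T : Type} (S : (ι → ℕ) → Finset T) (μ : T → ι → ℕ) (β : T → ℤ)
    (W : (ι → ℕ) → T → ℚ)
    (hS : ∀ a N, W a N ≠ 0 → N ∈ S a) (hm : ∀ a N, W a N ≠ 0 → μ N ≤ a)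
    (hW : ∀ a N, W a N = (∏ i, (gb (q ^ bd b i) (a i) (μ N i) : ℚ)) * W (μ N) N)
    (φ : (ι → ℕ) → ℚ) (a : ι → ℕ) :
    ∑ N ∈ S a, (q : ℚ) ^ β N * φ (μ N) * W a N
      = ∑ n ∈ Finset.Iic a, φ n * (∏ i, (gb (q ^ bd b i) (a i) (n i) : ℚ)) *
          ∑ N ∈ (S n).filter (fun N => μ N = n), (q : ℚ) ^ β N * W n N := by
  classical
  have h1 : ∑ N ∈ S a, (q : ℚ) ^ β N * φ (μ N) * W a N
      = ∑ N ∈ (S a).filter (fun N => μ N ∈ Finset.Iic a), (q : ℚ) ^ β N * φ (μ N) * W a N := by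
    rw [Finset.sum_filter_of_ne]
    intro N _ hN
    rw [Finset.mem_Iic]
    exact hm a N (right_ne_zero_of_mul hN)
  rw [h1, ← Finset.sum_fiberwise_of_maps_to (s := (S a).filter (fun N => μ N ∈ Finset.Iic a))
    (t := Finset.Iic a) (g := μ) (fun N hN => (Finset.mem_filter.1 hN).2)]
  refine Finset.sum_congr rfl fun n hn => ?_
  rw [Finset.filter_filter, Finset.mul_sum]
  have hz1 : ∀ N, μ N = n → (q : ℚ) ^ β N * φ (μ N) * W a N
      = φ n * (∏ i, (gb (q ^ bd b i) (a i) (n i) : ℚ)) * ((q : ℚ) ^ β N * W n N) := by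
    intro N hN
    rw [hW a N, hN]
    ring
  have h2 : ∑ N ∈ (S a).filter (fun N => μ N ∈ Finset.Iic a ∧ μ N = n),
      (q : ℚ) ^ β N * φ (μ N) * W a N
      = ∑ N ∈ (S a ∪ S n).filter (fun N => μ N = n),
        φ n * (∏ i, (gb (q ^ bd b i) (a i) (n i) : ℚ)) * ((q : ℚ) ^ β N * W n N) := by
    refine (Finset.sum_congr rfl fun N hN => hz1 N (Finset.mem_filter.1 hN).2.2).trans
      (Finset.sum_subset ?_ ?_)
    · intro N hN
      rw [Finset.mem_filter] at hN ⊢
      exact ⟨Finset.mem_union_left _ hN.1, hN.2.2⟩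
    · intro N hN hN'
      rw [Finset.mem_filter] at hN
      rw [← hz1 N hN.2]
      by_contra hne
      apply hN'
      rw [Finset.mem_filter, Finset.mem_Iic]
      exact ⟨hS a N (right_ne_zero_of_mul hne), hm a N (right_ne_zero_of_mul hne), hN.2⟩
  rw [h2]
  refine (Finset.sum_subset ?_ ?_).symm
  · intro N hN
    rw [Finset.mem_filter] at hN ⊢
    exact ⟨Finset.mem_union_right _ hN.1, hN.2⟩
  · intro N hN hN'
    rw [Finset.mem_filter] at hN
    by_contra hne
    apply hN'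
    rw [Finset.mem_filter]
    exact ⟨hS n N (right_ne_zero_of_mul (right_ne_zero_of_mul hne)), hN.2⟩

theorem p_identity (h1 : S_coords) (h2 : S_J_unique) (h3 : S_be_add) : S_identity := by
  classical
  intro ι _ _ b hb q hq T S μ β W A hA0 hS hm hW hA1 hA2 a
  set v : ℚ := (q : ℚ)⁻¹ with hvdef
  have hq0 : (q : ℚ) ≠ 0 := by
    have : q ≠ 0 := by omega
    exact_mod_cast this
  have hv0 : v ≠ 0 := inv_ne_zero hq0
  set B : (ι → ℕ) → ℚ := fun n =>
    ∑ N ∈ (S n).filter (fun N => μ N = n), (q : ℚ) ^ β N * W n N with hB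
  have c1 : ∀ a, A a = ∑ n ∈ Finset.Iic a,
      (∏ i, (gb (q ^ bd b i) (a i) (n i) : ℚ)) * B n := by
    intro a
    have := identity_group b q S μ β W hS hm hW (fun _ => 1) a
    simp only [mul_one, one_mul] at this
    rw [hA1 a, this]
  have c2 : ∀ a, v ^ be b a * A a = ∑ n ∈ Finset.Iic a,
      v ^ (∑ i, bd b i * a i * n i) * (∏ i, (gb (q ^ bd b i) (a i) (n i) : ℚ)) * B n := by
    intro a
    have := identity_group b q S μ β W hS hm hW (fun n => v ^ (∑ i, bd b i * a i * n i)) a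
    rw [← this, hA2 a, ← mul_assoc, ← mul_pow, hvdef, inv_mul_cancel₀ hq0, one_pow, one_mul]
    refine Finset.sum_congr rfl fun N _ => ?_
    rw [zpow_sub₀ hq0, div_eq_mul_inv, zpow_natCast, inv_pow]
  have hvpm : ∀ a, vpm b v a ≠ 0 := fun a => identity_vpm_ne b hb hq a
  have hJ := h2 b v (fun a ha => (identity_pow_lt hq (hb.bq_pos a ha)).ne)
    (fun a => v ^ be b a * A a / vpm b v a ^ 2)
    (by
      have hbe : be b 0 = 0 := by
        have := h3 b hb 0
        simp only [Pi.zero_apply] at this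
        have h0 : (∑ i, bd b i * 0 ^ 2) = 0 := by simp
        omega
      have hvp : vpm b v 0 = 1 := by
        simp [vpm, vp]
      simp only [hbe, hvp, hA0, pow_zero, one_pow, mul_one, div_one])
    (by
      intro a _
      rw [c2 a, Finset.sum_div]
      have e1 : ∀ n ∈ Finset.Iic a,
          v ^ (∑ i, bd b i * a i * n i) * (∏ i, (gb (q ^ bd b i) (a i) (n i) : ℚ)) * B n /
            vpm b v a ^ 2
          = ∑ β ∈ Finset.Iic a, v ^ (∑ i, bd b i * β i ^ 2) *
            (∏ i, (gb (q ^ bd b i) (β i) (n i) : ℚ)) /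
              (vpm b v (a - β) * vpm b v β ^ 2) * B n := by
        intro n _
        rw [← Finset.sum_mul, ← h1 b hb q hq a n]
        ring
      rw [Finset.sum_congr rfl e1, Finset.sum_comm]
      refine Finset.sum_congr rfl fun γ hγ => ?_
      rw [Finset.mem_Iic] at hγ
      have e2 : ∑ n ∈ Finset.Iic a, (∏ i, (gb (q ^ bd b i) (γ i) (n i) : ℚ)) * B n = A γ := by
        rw [c1 γ]
        refine (Finset.sum_subset (Finset.Iic_subset_Iic.2 hγ) ?_).symm
        intro n _ hn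
        rw [Finset.mem_Iic, Pi.le_def, not_forall] at hn
        obtain ⟨i, hi⟩ := hn
        rw [Finset.prod_eq_zero (Finset.mem_univ i), zero_mul]
        rw [identity_gb_zero _ _ _ (not_le.1 hi), Nat.cast_zero]
      have e3 : v ^ (∑ i, bd b i * γ i ^ 2) = v ^ be b γ * v ^ bq b γ := by
        rw [← pow_add, h3 b hb γ]
      rw [← e2, e3, Finset.mul_sum, Finset.sum_div, Finset.mul_sum]
      refine Finset.sum_congr rfl fun n _ => ?_
      have hx := hvpm (a - γ)
      have hy := hvpm γ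
      field_simp)
    a
  have hJ' : vpm b v a ^ 2 * J b v a = v ^ be b a * A a := by
    rw [← hJ]
    have := hvpm a
    field_simp
  rw [hJ', ← mul_assoc, ← mul_pow, hvdef, mul_inv_cancel₀ hq0, one_pow, one_mul]

end J4c
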