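import Pool.Agent.Lib.J4c.NumStm

/-!
MP_4c1f79_al, piece marks: the reduction to the marked values.
-/

set_option autoImplicit false
set_option linter.unusedVariables false

namespace J4c

private theorem marks_ind {κ : Type} [Fintype κ] [DecidableEq κ] (Q : (κ → ℕ) → Prop)
    (h0 : Q 0) (h1 : ∀ a i, Q a → Q (a + Pi.single i 1)) : ∀ a, Q a := by
  have key : ∀ k : ℕ, ∀ a : κ → ℕ, ∑ i, a i = k → Q a := by
    intro k
    induction k with
    | zero =>
      intro a ha
      have h2 : a = 0 := by
        funext i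
        have h3 := (Finset.sum_eq_zero_iff.1 ha) i (Finset.mem_univ i)
        simpa using h3
      rw [h2]; exact h0
    | succ k ih =>
      intro a ha
      have h2 : ∃ i, a i ≠ 0 := by
        by_contra hcon
        push Not at hcon
        rw [Finset.sum_eq_zero (fun i _ => hcon i)] at ha
        omega
      obtain ⟨i, hi⟩ := h2
      have h3 : a = (a - Pi.single i 1) + Pi.single i 1 := by
        funext j
        by_cases hj : j = i
        · subst hj
          simp only [Pi.add_apply, Pi.sub_apply, Pi.single_eq_same]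
          omega
        · simp only [Pi.add_apply, Pi.sub_apply, Pi.single_eq_of_ne hj]
          omega
      rw [h3]
      apply h1
      apply ih
      have h4 : ∑ j, a j = ∑ j, (a - Pi.single i 1 : κ → ℕ) j + ∑ j, (Pi.single i 1 : κ → ℕ) j := by
        rw [← Finset.sum_add_distrib]
        refine Finset.sum_congr rfl fun j _ => ?_
        exact congrFun h3 j
      have h5 : ∑ j, (Pi.single i 1 : κ → ℕ) j = 1 := by
        rw [Finset.sum_pi_single']
        simp
      omega
  intro a
  exact key _ a rfl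

private theorem marks_gb_zero (q n : ℕ) : gb q n 0 = 1 := by
  cases n <;> rfl

theorem p_marks : S_marks := by
  intro κ _ _ P _ _ q hq d p β hβ c hc0 hc1 Z hZ0 hZ
  classical
  -- support
  have hsup : ∀ a N, Z a N ≠ 0 → ∀ j, N (p j) ≤ a j := by
    intro a
    refine marks_ind (fun a => ∀ N, Z a N ≠ 0 → ∀ j, N (p j) ≤ a j) ?_ ?_ a
    · intro N hN j
      rw [hZ0] at hN
      have hN0 : N = 0 := by
        by_contra hne
        rw [if_neg hne] at hN
        exact hN rfl
      rw [hN0]
      simp
    · intro a i ih N hN j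
      rw [hZ] at hN
      obtain ⟨N₁, hN₁, hne⟩ := Finset.exists_ne_zero_of_sum_ne_zero hN
      have hle := Finset.mem_Iic.1 hN₁
      have hc : c i N₁ ≠ 0 := by
        intro h; apply hne; rw [h]; ring
      have hz : Z a (N - N₁) ≠ 0 := by
        intro h; apply hne; rw [h]; ring
      have h1 := ih _ hz j
      have h2 := hle (p j)
      simp only [Pi.sub_apply] at h1
      by_cases h0 : N₁ = 0
      · rw [h0] at h1
        simp only [Pi.zero_apply, Pi.add_apply] at h1 ⊢
        omega
      · obtain ⟨h3, h4⟩ := hc1 i N₁ hc h0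
        by_cases hj : j = i
        · subst hj
          rw [h3] at h1
          simp only [Pi.add_apply, Pi.single_eq_same]
          omega
        · rw [h4 j hj] at h1
          simp only [Pi.add_apply, Pi.single_eq_of_ne hj]
          omega
  -- splitting of the sum
  have hsplit : ∀ a i N, Z (a + Pi.single i 1) N = (q : ℚ) ^ (d i * N (p i)) * Z a N +
      ∑ N₁ ∈ (Finset.Iic N).erase 0,
        (q : ℚ) ^ ((d i * (N - N₁) (p i) : ℕ) - β (N - N₁) N₁) * c i N₁ * Z a (N - N₁) := by
    intro a i N
    rw [hZ, ← Finset.add_sum_erase _ _ (Finset.mem_Iic.2 (zero_le : (0 : P → ℕ) ≤ N))]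
    congr 1
    rw [tsub_zero, hβ, hc0, sub_zero, mul_one, zpow_natCast]
  intro a
  refine marks_ind (fun a => ∀ N, Z a N =
    (∏ i, (gb (q ^ d i) (a i) (N (p i)) : ℚ)) * Z (fun i => N (p i)) N) ?_ ?_ a
  · intro N
    by_cases hN : ∀ i, N (p i) = 0
    · have h1 : (fun i => N (p i)) = (0 : κ → ℕ) := by
        funext i; exact hN i
      rw [h1]
      have h2 : (∏ i, (gb (q ^ d i) ((0 : κ → ℕ) i) (N (p i)) : ℚ)) = 1 := by
        apply Finset.prod_eq_one
        intro i _
        rw [hN i, marks_gb_zero]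
        simp
      rw [h2, one_mul]
    · push Not at hN
      obtain ⟨i, hi⟩ := hN
      have h1 : (∏ i, (gb (q ^ d i) ((0 : κ → ℕ) i) (N (p i)) : ℚ)) = 0 := by
        apply Finset.prod_eq_zero (Finset.mem_univ i)
        obtain ⟨m, hm⟩ : ∃ m, N (p i) = m + 1 := ⟨N (p i) - 1, by omega⟩
        rw [hm]
        have : gb (q ^ d i) ((0 : κ → ℕ) i) (m + 1) = 0 := rfl
        rw [this]; simp
      rw [h1, zero_mul, hZ0, if_neg]
      intro h; rw [h] at hi; exact hi rfl
  · intro a i ih N
    -- the remaining sum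
    have hR : ∀ b : κ → ℕ, (∀ N', Z b N' =
        (∏ j, (gb (q ^ d j) (b j) (N' (p j)) : ℚ)) * Z (fun j => N' (p j)) N') → N (p i) ≠ 0 →
        ∑ N₁ ∈ (Finset.Iic N).erase 0,
          (q : ℚ) ^ ((d i * (N - N₁) (p i) : ℕ) - β (N - N₁) N₁) * c i N₁ * Z b (N - N₁)
        = ((gb (q ^ d i) (b i) (N (p i) - 1) : ℚ) *
            ∏ j ∈ Finset.univ.erase i, (gb (q ^ d j) (b j) (N (p j)) : ℚ)) *
          ∑ N₁ ∈ (Finset.Iic N).erase 0,
          (q : ℚ) ^ ((d i * (N - N₁) (p i) : ℕ) - β (N - N₁) N₁) * c i N₁ *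
            Z ((fun j => N (p j)) - Pi.single i 1) (N - N₁) := by
      intro b hb hne
      rw [Finset.mul_sum]
      refine Finset.sum_congr rfl fun N₁ hN₁ => ?_
      have hN0 := Finset.ne_of_mem_erase hN₁
      have hle := Finset.mem_Iic.1 (Finset.mem_of_mem_erase hN₁)
      by_cases hc : c i N₁ = 0
      · rw [hc]; ring
      · obtain ⟨h3, h4⟩ := hc1 i N₁ hc hN0
        have h5 : (fun j => (N - N₁) (p j)) = (fun j => N (p j)) - Pi.single i 1 := by
          funext j
          by_cases hj : j = i
          · subst hj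
            simp only [Pi.sub_apply, Pi.single_eq_same, h3]
          · simp only [Pi.sub_apply, Pi.single_eq_of_ne hj, h4 j hj]
        rw [hb (N - N₁), h5, ← Finset.mul_prod_erase Finset.univ _ (Finset.mem_univ i)]
        have h6 : (N - N₁) (p i) = N (p i) - 1 := by
          rw [Pi.sub_apply, h3]
        have h7 : ∏ j ∈ Finset.univ.erase i, (gb (q ^ d j) (b j) ((N - N₁) (p j)) : ℚ)
            = ∏ j ∈ Finset.univ.erase i, (gb (q ^ d j) (b j) (N (p j)) : ℚ) := by
          refine Finset.prod_congr rfl fun j hj => ?_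
          rw [Pi.sub_apply, h4 j (Finset.ne_of_mem_erase hj), Nat.sub_zero]
        rw [h7, h6]
        ring
    rw [hsplit, ih N]
    have hprod : (∏ j, (gb (q ^ d j) ((a + Pi.single i 1 : κ → ℕ) j) (N (p j)) : ℚ)) =
        (gb (q ^ d i) (a i + 1) (N (p i)) : ℚ) *
          ∏ j ∈ Finset.univ.erase i, (gb (q ^ d j) (a j) (N (p j)) : ℚ) := by
      rw [← Finset.mul_prod_erase Finset.univ _ (Finset.mem_univ i)]
      congr 1
      · rw [Pi.add_apply, Pi.single_eq_same]
      · refine Finset.prod_congr rfl fun j hj => ?_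
        rw [Pi.add_apply, Pi.single_eq_of_ne (Finset.ne_of_mem_erase hj), add_zero]
    have hprod0 : (∏ j, (gb (q ^ d j) (a j) (N (p j)) : ℚ)) =
        (gb (q ^ d i) (a i) (N (p i)) : ℚ) *
          ∏ j ∈ Finset.univ.erase i, (gb (q ^ d j) (a j) (N (p j)) : ℚ) := by
      rw [← Finset.mul_prod_erase Finset.univ _ (Finset.mem_univ i)]
    rw [hprod, hprod0]
    by_cases hni : N (p i) = 0
    · have h1 : ∑ N₁ ∈ (Finset.Iic N).erase 0,
          (q : ℚ) ^ ((d i * (N - N₁) (p i) : ℕ) - β (N - N₁) N₁) * c i N₁ * Z a (N - N₁) = 0 := by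
        refine Finset.sum_eq_zero fun N₁ hN₁ => ?_
        have hN0 := Finset.ne_of_mem_erase hN₁
        have hle := Finset.mem_Iic.1 (Finset.mem_of_mem_erase hN₁)
        by_cases hc : c i N₁ = 0
        · rw [hc]; ring
        · exfalso
          obtain ⟨h3, h4⟩ := hc1 i N₁ hc hN0
          have h5 : N₁ (p i) ≤ N (p i) := hle (p i)
          omega
      rw [h1, hni, marks_gb_zero, marks_gb_zero]
      simp
    · obtain ⟨m, hm⟩ : ∃ m, N (p i) = m + 1 := ⟨N (p i) - 1, by omega⟩
      have hn : (fun j => N (p j)) = ((fun j => N (p j)) - Pi.single i 1) + Pi.single i 1 := by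
        funext j
        by_cases hj : j = i
        · subst hj
          simp only [Pi.add_apply, Pi.sub_apply, Pi.single_eq_same]
          omega
        · simp only [Pi.add_apply, Pi.sub_apply, Pi.single_eq_of_ne hj]
          omega
      have h1 : Z ((fun j => N (p j)) - Pi.single i 1) N = 0 := by
        by_contra hne
        have h2 := hsup _ _ hne i
        simp only [Pi.sub_apply, Pi.single_eq_same] at h2
        omega
      have h2 := hsplit ((fun j => N (p j)) - Pi.single i 1) i N
      rw [← hn, h1, mul_zero, zero_add] at h2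
      rw [hR a ih hni, ← h2, hm]
      have h3 : gb (q ^ d i) (a i + 1) (m + 1) =
          (q ^ d i) ^ (m + 1) * gb (q ^ d i) (a i) (m + 1) + gb (q ^ d i) (a i) m := rfl
      rw [h3, Nat.add_sub_cancel]
      push_cast
      rw [← pow_mul]
      ring

end J4c
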