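import Pool.Agent.Lib.J4c.NumStm

/-!
# [J4 vand] A form of the `q`-Vandermonde identity
-/

set_option autoImplicit false

namespace J4c

private theorem vand_succ {F : Type} [Field F] (v : F) (n : ℕ) :
    vp v (n + 1) = vp v n * (1 - v ^ (n + 1)) := by
  unfold vp
  rw [Finset.prod_range_succ]

private theorem vand_ne {F : Type} [Field F] (v : F) (hv : ∀ j : ℕ, v ^ (j + 1) ≠ 1) (n : ℕ) :
    vp v n ≠ 0 := by
  unfold vp
  rw [Finset.prod_ne_zero_iff]
  intro j _ h
  exact hv j (sub_eq_zero.1 h).symm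

private theorem vand_step {F : Type} [Field F] (v : F) (hv : ∀ j : ℕ, v ^ (j + 1) ≠ 1)
    (m n : ℕ) :
    (1 - v ^ (m + 1)) * ∑ c ∈ Finset.range (m + 1 + 1),
        v ^ (c * (c + n)) / (vp v (m + 1 - c) * vp v c * vp v (c + n))
      = (∑ c ∈ Finset.range (m + 1), v ^ (c * (c + n)) / (vp v (m - c) * vp v c * vp v (c + n)))
        + v ^ (m + 1 + n) * ∑ c ∈ Finset.range (m + 1),
          v ^ (c * (c + (n + 1))) / (vp v (m - c) * vp v c * vp v (c + (n + 1))) := by
  have hne := vand_ne v hv
  have h1 : ∀ c ∈ Finset.range (m + 1 + 1),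
      (1 - v ^ (m + 1)) * (v ^ (c * (c + n)) / (vp v (m + 1 - c) * vp v c * vp v (c + n)))
      = (1 - v ^ (m + 1 - c)) *
          (v ^ (c * (c + n)) / (vp v (m + 1 - c) * vp v c * vp v (c + n)))
        + v ^ (m + 1 - c) * (1 - v ^ c) *
          (v ^ (c * (c + n)) / (vp v (m + 1 - c) * vp v c * vp v (c + n))) := by
    intro c hc
    have hc' : c ≤ m + 1 := Nat.lt_succ_iff.1 (Finset.mem_range.1 hc)
    have h2 : v ^ (m + 1) = v ^ (m + 1 - c) * v ^ c := by
      rw [← pow_add]
      congr 1
      omega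
    rw [h2]
    ring
  rw [Finset.mul_sum, Finset.sum_congr rfl h1, Finset.sum_add_distrib]
  congr 1
  · rw [Finset.sum_range_succ, Nat.sub_self, pow_zero, sub_self, zero_mul, add_zero]
    apply Finset.sum_congr rfl
    intro c hc
    have hc' : c ≤ m := Nat.lt_succ_iff.1 (Finset.mem_range.1 hc)
    have h2 : m + 1 - c = (m - c) + 1 := by omega
    have h3 : (1 - v ^ (m - c + 1)) ≠ 0 := fun h => hv (m - c) (sub_eq_zero.1 h).symm
    rw [h2, vand_succ v (m - c)]
    have h4 := hne (m - c)
    have h5 := hne c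
    have h6 := hne (c + n)
    field_simp
  · rw [Finset.sum_range_succ', pow_zero, sub_self, mul_zero, zero_mul, add_zero, Finset.mul_sum]
    apply Finset.sum_congr rfl
    intro c hc
    have hc' : c ≤ m := Nat.lt_succ_iff.1 (Finset.mem_range.1 hc)
    have h2 : m + 1 - (c + 1) = m - c := by omega
    have h3 : (1 - v ^ (c + 1)) ≠ 0 := fun h => hv c (sub_eq_zero.1 h).symm
    have h7 : c + 1 + n = c + (n + 1) := by omega
    rw [h2, vand_succ v c, h7]
    have h4 := hne (m - c)
    have h5 := hne c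
    have h6 := hne (c + (n + 1))
    have h8 : v ^ (m - c) * v ^ ((c + 1) * (c + (n + 1))) =
        v ^ (m + 1 + n) * v ^ (c * (c + (n + 1))) := by
      rw [← pow_add, ← pow_add]
      congr 1
      have : (c + 1) * (c + (n + 1)) = c * (c + (n + 1)) + (c + (n + 1)) := by ring
      rw [this]
      omega
    calc v ^ (m - c) * (1 - v ^ (c + 1)) * (v ^ ((c + 1) * (c + (n + 1))) /
          (vp v (m - c) * (vp v c * (1 - v ^ (c + 1))) * vp v (c + (n + 1))))
        = (v ^ (m - c) * v ^ ((c + 1) * (c + (n + 1)))) /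
          (vp v (m - c) * vp v c * vp v (c + (n + 1))) := by
          field_simp
      _ = v ^ (m + 1 + n) * (v ^ (c * (c + (n + 1))) /
          (vp v (m - c) * vp v c * vp v (c + (n + 1)))) := by
          rw [h8, mul_div_assoc]

theorem p_vand : S_vand := by
  intro F _ v hv m
  have hne := vand_ne v hv
  induction m with
  | zero =>
    intro n
    simp [vp]
  | succ m ih =>
    intro n
    have h1 := vand_step v hv m n
    rw [ih n, ih (n + 1)] at h1
    have h3 : (1 - v ^ (m + 1)) ≠ 0 := fun h => hv m (sub_eq_zero.1 h).symm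
    have h4 : (1 - v ^ (m + n + 1)) ≠ 0 := fun h => hv (m + n) (sub_eq_zero.1 h).symm
    have h5 := hne m
    have h6 := hne (m + n)
    have e1 : m + (n + 1) = m + n + 1 := by omega
    have e2 : m + 1 + n = m + n + 1 := by omega
    rw [e1, e2, vand_succ v (m + n)] at h1
    rw [e2, vand_succ v (m + n), vand_succ v m]
    apply mul_left_cancel₀ h3
    rw [h1]
    field_simp
    ring

end J4c
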