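import Pool.Agent.Lib.J4c.RSStm

/-!
MP_4c1f79_al: `CF` implies `GoodForm`.
-/

set_option autoImplicit false

namespace J4c

private theorem good_of_cf_even {ι : Type} [DecidableEq ι] (f : ι → ι → ℤ)
    (hs : ∀ i j, f i j = f j i) (he : ∀ i, 2 ∣ f i i) (S : Finset ι) :
    2 ∣ ∑ i ∈ S, ∑ j ∈ S, f i j := by
  induction S using Finset.induction_on with
  | empty => simp
  | insert a S ha ih =>
    have h1 : ∑ i ∈ insert a S, ∑ j ∈ insert a S, f i j
        = f a a + 2 * (∑ j ∈ S, f a j) + ∑ i ∈ S, ∑ j ∈ S, f i j := by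
      have h2 : ∀ i, ∑ j ∈ insert a S, f i j = f i a + ∑ j ∈ S, f i j := fun i =>
        Finset.sum_insert ha
      have h3 : ∑ i ∈ S, f i a = ∑ i ∈ S, f a i := Finset.sum_congr rfl fun i _ => hs i a
      rw [Finset.sum_insert ha, h2 a, Finset.sum_congr rfl fun i _ => h2 i,
        Finset.sum_add_distrib, h3]
      ring
    rw [h1]
    exact dvd_add (dvd_add (he a) (dvd_mul_right _ _)) ih

theorem p_good_of_cf : S_good_of_cf := by
  intro ι _ _ b hb
  refine ⟨hb.symm, hb.even, hb.pos, hb.nonpos, ?_⟩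
  intro a ha
  have h1 : (2 : ℤ) ∣ ∑ i, ∑ j, b i j * (a i : ℤ) * (a j : ℤ) := by
    refine good_of_cf_even (fun i j => b i j * (a i : ℤ) * (a j : ℤ)) ?_ ?_ Finset.univ
    · intro i j
      rw [hb.symm i j]
      ring
    · intro i
      rw [mul_assoc]
      exact Dvd.dvd.mul_right (hb.even i) _
  have h2 : (0 : ℚ) < ∑ i, ∑ j, (b i j : ℚ) * (a i : ℚ) * (a j : ℚ) := by
    refine hb.pd (fun i => (a i : ℚ)) ?_
    intro h3
    apply ha
    funext i
    have h4 := congrFun h3 i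
    simpa using h4
  have h3 : (0 : ℤ) < ∑ i, ∑ j, b i j * (a i : ℤ) * (a j : ℤ) := by
    have h4 : ((∑ i, ∑ j, b i j * (a i : ℤ) * (a j : ℤ) : ℤ) : ℚ)
        = ∑ i, ∑ j, (b i j : ℚ) * (a i : ℚ) * (a j : ℚ) := by
      push_cast
      rfl
    rw [← h4] at h2
    exact_mod_cast h2
  unfold bq
  omega

end J4c
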