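import Pool.Agent.Lib.J4c.RSStm

/-!
[J4 pd_scale] A lemma on positive definite matrices.
-/

set_option autoImplicit false

namespace J4c

theorem p_pd_scale : S_pd_scale := by
  intro κ _ A hA ρ hρ h x hx
  classical
  have key : ∀ i j, A i j * ρ j * x i * x j = ∑ t ∈ Finset.univ.image ρ,
      t * (A i j * (if ρ i = t then x i else 0) * (if ρ j = t then x j else 0)) := by
    intro i j
    rw [Finset.sum_eq_single (ρ j)]
    · by_cases hA0 : A i j = 0
      · rw [hA0]
        ring
      · rw [if_pos (h i j hA0), if_pos rfl]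
        ring
    · intro t _ ht
      rw [if_neg (fun e => ht e.symm) (c := ρ j = t)]
      ring
    · intro hj
      exact absurd (Finset.mem_image_of_mem ρ (Finset.mem_univ j)) hj
  have h1 : ∑ i, ∑ j, A i j * ρ j * x i * x j = ∑ t ∈ Finset.univ.image ρ,
      t * ∑ i, ∑ j, A i j * (if ρ i = t then x i else 0) * (if ρ j = t then x j else 0) := by
    have e1 : ∀ i, ∑ j, A i j * ρ j * x i * x j = ∑ t ∈ Finset.univ.image ρ,
        ∑ j, t * (A i j * (if ρ i = t then x i else 0) * (if ρ j = t then x j else 0)) := by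
      intro i
      rw [Finset.sum_comm]
      exact Finset.sum_congr rfl fun j _ => key i j
    rw [Finset.sum_congr rfl fun i _ => e1 i, Finset.sum_comm]
    refine Finset.sum_congr rfl fun t _ => ?_
    rw [Finset.mul_sum]
    exact Finset.sum_congr rfl fun i _ => (Finset.mul_sum _ _ _).symm
  rw [h1]
  obtain ⟨i0, hi0⟩ := Function.ne_iff.mp hx
  have hpos : ∀ t ∈ Finset.univ.image ρ, 0 ≤
      t * ∑ i, ∑ j, A i j * (if ρ i = t then x i else 0) * (if ρ j = t then x j else 0) := by
    intro t ht
    obtain ⟨k, _, rfl⟩ := Finset.mem_image.mp ht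
    refine mul_nonneg (hρ k).le ?_
    by_cases hz : (fun i => if ρ i = ρ k then x i else 0) = (0 : κ → ℚ)
    · have hz' : ∀ i, (if ρ i = ρ k then x i else 0) = (0 : ℚ) := fun i => congrFun hz i
      refine le_of_eq (Eq.symm ?_)
      refine Finset.sum_eq_zero fun i _ => Finset.sum_eq_zero fun j _ => ?_
      rw [hz' i]
      ring
    · exact (hA _ hz).le
  refine Finset.sum_pos' hpos ⟨ρ i0, Finset.mem_image_of_mem ρ (Finset.mem_univ i0), ?_⟩
  refine mul_pos (hρ i0) (hA (fun i => if ρ i = ρ i0 then x i else 0) ?_)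
  intro hz
  have h2 := congrFun hz i0
  rw [if_pos rfl] at h2
  exact hi0 h2

end J4c
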