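import Pool.Agent.Lib.J4c.RSStm

/-!
MP_4c1f79_al: piece rs_cf (helper27), the matrix of an invariant form on a base.
-/

set_option autoImplicit false

namespace J4c

private theorem rs_cf_int {κ : Type} [Fintype κ] (A : κ → κ → ℤ)
    (hA : ∀ y : κ → ℤ, y ≠ 0 → 0 < ∑ i, ∑ j, A i j * y i * y j) (x : κ → ℚ) (hx : x ≠ 0) :
    0 < ∑ i, ∑ j, (A i j : ℚ) * x i * x j := by
  classical
  set D : ℕ := ∏ k, (x k).den with hD
  have hD0 : (0 : ℚ) < D := by
    rw [hD]
    exact_mod_cast Finset.prod_pos fun k _ => (x k).den_pos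
  have h1 : ∀ i, ∃ y : ℤ, (D : ℚ) * x i = y := by
    intro i
    obtain ⟨e, he⟩ : (x i).den ∣ D := Finset.dvd_prod_of_mem _ (Finset.mem_univ i)
    refine ⟨e * (x i).num, ?_⟩
    rw [he]
    push_cast
    have h2 : ((x i).den : ℚ) * x i = (x i).num := by
      rw [mul_comm]
      exact Rat.mul_den_eq_num (x i)
    linear_combination (e : ℚ) * h2
  choose y hy using h1
  have hy0 : y ≠ 0 := by
    intro h0
    apply hx
    funext i
    have h2 := hy i
    rw [h0] at h2
    have h3 : (D : ℚ) * x i = 0 := by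
      rw [h2]
      simp
    exact (mul_eq_zero.1 h3).resolve_left hD0.ne'
  have h2 := hA y hy0
  have h3 : (0 : ℚ) < ∑ i, ∑ j, (A i j : ℚ) * y i * y j := by exact_mod_cast h2
  have h4 : ∑ i, ∑ j, (A i j : ℚ) * y i * y j = (D : ℚ) ^ 2 * ∑ i, ∑ j, (A i j : ℚ) * x i * x j := by
    rw [Finset.mul_sum]
    refine Finset.sum_congr rfl fun i _ => ?_
    rw [Finset.mul_sum]
    refine Finset.sum_congr rfl fun j _ => ?_
    rw [← hy i, ← hy j]
    ring
  rw [h4] at h3
  exact pos_of_mul_pos_right h3 (by positivity)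

theorem p_rs_cf (h1 : S_rs_pos) (h2 : S_rs_norm) (h3 : S_pd_scale) : S_rs_cf := by
  intro ι M N _ _ _ _ _ P _ _ _ b B hB c hc
  classical
  have hsym : ∀ x y, B.form x y = B.form y x := fun x y => B.symm.eq x y
  have hpos := h1 P B hB
  have hci : ∀ i, 0 < c i i := by
    intro i
    have := hpos i
    rw [← hc i i] at this
    exact_mod_cast this
  have hC : ∀ i j : b.support, 2 * c i j = b.cartanMatrix i j * c j j := by
    intro i j
    have h4 := B.two_mul_apply_root_root (i : ι) (j : ι)
    rw [← hc i j, ← hc j j, ← P.algebraMap_pairingIn ℤ] at h4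
    have h5 : (algebraMap ℤ ℚ) (P.pairingIn ℤ i j) = (b.cartanMatrix i j : ℚ) := rfl
    rw [h5] at h4
    exact_mod_cast h4
  have hcs : ∀ i j, c i j = c j i := by
    intro i j
    have h4 : (c i j : ℚ) = c j i := by rw [hc, hc, hsym]
    exact_mod_cast h4
  refine ⟨hcs, ?_, hci, ?_, ?_, ?_⟩
  · intro i
    obtain ⟨⟨n, -, hn⟩, -⟩ := h2 P B hB i
    rw [← hc i i] at hn
    exact ⟨n, by exact_mod_cast hn⟩
  · intro i j
    rw [hcs i j]
    exact ⟨b.cartanMatrix j i, by rw [hC j i, mul_comm]⟩
  · intro i j hij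
    have h4 := b.cartanMatrix_le_zero_of_ne i j hij
    have h5 := hC i j
    have h6 := hci j
    nlinarith
  · obtain ⟨d, hd, hPD⟩ := b.exists_cartanMatrix_mul_diagaonal_posDef
    have hdq : ∀ i, (0 : ℚ) < d i := fun i => by exact_mod_cast hd i
    have hcq : ∀ i, (0 : ℚ) < c i i := fun i => by exact_mod_cast hci i
    have hM : ∀ i j, (b.cartanMatrix * Matrix.diagonal d) i j = b.cartanMatrix i j * d j := by
      intro i j
      rw [Matrix.mul_diagonal]
    have hS : ∀ i j, b.cartanMatrix i j * d j = b.cartanMatrix j i * d i := by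
      intro i j
      have h4 := hPD.isHermitian.apply i j
      rw [hM, hM] at h4
      simpa using h4.symm
    have hA := rs_cf_int (fun i j => b.cartanMatrix i j * d j) (by
      intro y hy
      have h4 := hPD.dotProduct_mulVec_pos hy
      have h5 : star y ⬝ᵥ Matrix.mulVec (b.cartanMatrix * Matrix.diagonal d) y =
          ∑ i, ∑ j, b.cartanMatrix i j * d j * y i * y j := by
        simp only [dotProduct, Matrix.mulVec, star_trivial]
        refine Finset.sum_congr rfl fun i _ => ?_
        rw [Finset.mul_sum]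
        refine Finset.sum_congr rfl fun j _ => ?_
        rw [hM]
        ring
      rw [h5] at h4
      exact h4)
    intro x hx
    have h4 := h3 (fun i j : b.support => ((b.cartanMatrix i j * d j : ℤ) : ℚ)) hA
      (fun j => (c j j : ℚ) / (2 * d j)) (fun j => div_pos (hcq j) (mul_pos two_pos (hdq j))) ?_ x hx
    · refine lt_of_lt_of_eq h4 ?_
      refine Finset.sum_congr rfl fun i _ => Finset.sum_congr rfl fun j _ => ?_
      have h5 : (2 : ℚ) * c i j = b.cartanMatrix i j * c j j := by exact_mod_cast hC i j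
      have h6 := (hdq j).ne'
      have h7 : ((b.cartanMatrix i j * d j : ℤ) : ℚ) * ((c j j : ℚ) / (2 * d j)) = c i j := by
        push_cast
        field_simp
        linear_combination -h5
      rw [h7]
    · intro i j hij
      have h5 : (b.cartanMatrix i j : ℚ) * d j ≠ 0 := by exact_mod_cast hij
      have h6 : (b.cartanMatrix i j : ℚ) * d j = b.cartanMatrix j i * d i := by
        exact_mod_cast hS i j
      have h7 : (b.cartanMatrix i j : ℚ) * c j j = b.cartanMatrix j i * c i i := by
        have h8 : b.cartanMatrix i j * c j j = b.cartanMatrix j i * c i i := by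
          rw [← hC i j, ← hC j i, hcs i j]
        exact_mod_cast h8
      have h8 := (hdq i).ne'
      have h9 := (hdq j).ne'
      have h10 : (b.cartanMatrix i j : ℚ) ≠ 0 := left_ne_zero_of_mul h5
      show (c i i : ℚ) / (2 * d i) = (c j j : ℚ) / (2 * d j)
      rw [div_eq_div_iff (by positivity) (by positivity)]
      apply mul_left_cancel₀ h10
      linear_combination (2 * c i i) * h6 - (2 * d i) * h7
end J4c
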