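import Pool.Agent.Lib.J4c.RSStm

/-!
MP_4c1f79_al: translation of the exponents of a root system (`rs_exp`).
-/

set_option autoImplicit false
set_option linter.unusedVariables false

namespace J4c

open Polynomial

private theorem rs_exp_two_dvd {κ : Type} [DecidableEq κ] (f : κ → κ → ℤ)
    (hs : ∀ i j, f i j = f j i) (he : ∀ i, 2 ∣ f i i) (s : Finset κ) :
    2 ∣ ∑ i ∈ s, ∑ j ∈ s, f i j := by
  induction s using Finset.induction_on with
  | empty => simp
  | insert x s hx ih =>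
    rw [Finset.sum_insert hx, Finset.sum_insert hx]
    have h1 : ∑ i ∈ s, ∑ j ∈ insert x s, f i j
        = ∑ j ∈ s, f x j + ∑ i ∈ s, ∑ j ∈ s, f i j := by
      rw [← Finset.sum_add_distrib]
      refine Finset.sum_congr rfl fun i hi => ?_
      rw [Finset.sum_insert hx, hs i x]
    rw [h1]
    have h2 : f x x + ∑ j ∈ s, f x j + (∑ j ∈ s, f x j + ∑ i ∈ s, ∑ j ∈ s, f i j)
        = f x x + 2 * ∑ j ∈ s, f x j + ∑ i ∈ s, ∑ j ∈ s, f i j := by ring
    rw [h2]
    exact dvd_add (dvd_add (he x) (dvd_mul_right _ _)) ih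

private theorem rs_exp_floor (q : ℚ) (z : ℤ) (hz : 0 ≤ z) (h : q = 2 * (z : ℚ)) :
    ⌊q / 2⌋₊ = z.toNat ∧ ((⌊q / 2⌋₊ : ℕ) : ℚ) = q / 2 := by
  obtain ⟨n, rfl⟩ := Int.eq_ofNat_of_zero_le hz
  have h1 : q / 2 = (n : ℚ) := by
    rw [h]
    push_cast
    ring
  rw [h1]
  simp

theorem p_rs_exp : S_rs_exp := by
  intro ι M N _ _ _ _ _ P b B c hc hcf
  classical
  refine ⟨fun a => ?_, fun i => ?_⟩
  · have hform : B.form (rvec b a) (rvec b a)
        = ((∑ i, ∑ j, c i j * (a i : ℤ) * (a j : ℤ) : ℤ) : ℚ) := by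
      unfold rvec
      push_cast
      rw [map_sum, Finset.sum_comm]
      refine Finset.sum_congr rfl fun j _ => ?_
      rw [map_sum, LinearMap.sum_apply]
      refine Finset.sum_congr rfl fun i _ => ?_
      rw [map_smul, map_smul, LinearMap.smul_apply, hc i j, smul_eq_mul, smul_eq_mul]
      ring
    have hev : (2 : ℤ) ∣ ∑ i, ∑ j, c i j * (a i : ℤ) * (a j : ℤ) := by
      refine rs_exp_two_dvd (fun i j => c i j * (a i : ℤ) * (a j : ℤ)) ?_ ?_ Finset.univ
      · intro i j
        show c i j * (a i : ℤ) * (a j : ℤ) = c j i * (a j : ℤ) * (a i : ℤ)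
        rw [hcf.symm i j]
        ring
      · intro i
        show (2 : ℤ) ∣ c i i * (a i : ℤ) * (a i : ℤ)
        exact Dvd.dvd.mul_right (Dvd.dvd.mul_right (hcf.even i) _) _
    have hnn : 0 ≤ ∑ i, ∑ j, c i j * (a i : ℤ) * (a j : ℤ) := by
      by_cases ha : (fun i => ((a i : ℕ) : ℚ)) = (0 : b.support → ℚ)
      · have h0 : ∀ i, a i = 0 := fun i => by
          have := congrFun ha i
          simpa using this
        simp [h0]
      · have := hcf.pd _ ha
        have h2 : (0 : ℚ) < ((∑ i, ∑ j, c i j * (a i : ℤ) * (a j : ℤ) : ℤ) : ℚ) := by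
          push_cast
          exact this
        exact le_of_lt (by exact_mod_cast h2)
    obtain ⟨z, hz⟩ := hev
    have hz0 : 0 ≤ z := by
      rw [hz] at hnn
      omega
    have hq : B.form (rvec b a) (rvec b a) = 2 * (z : ℚ) := by
      rw [hform, hz]
      push_cast
      ring
    obtain ⟨h1, h2⟩ := rs_exp_floor _ z hz0 hq
    refine ⟨?_, h2⟩
    unfold hf bq
    rw [h1, hz, Int.mul_ediv_cancel_left _ (by norm_num)]
  · obtain ⟨z, hz⟩ := hcf.even i
    have hp := hcf.pos i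
    have hz0 : 0 ≤ z := by omega
    have hq : B.form (P.root i) (P.root i) = 2 * (z : ℚ) := by
      rw [← hc i i, hz]
      push_cast
      ring
    obtain ⟨h1, h2⟩ := rs_exp_floor _ z hz0 hq
    refine ⟨?_, h2⟩
    unfold rd bd
    rw [h1, hz, Int.mul_ediv_cancel_left _ (by norm_num)]

end J4c
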