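import Pool.Agent.Lib.J4c.RSStm

/-!
MP_4c1f79_al: the final theorem for root systems, from positivity for all forms.
-/

set_option autoImplicit false
set_option linter.unusedVariables false

namespace J4c

open Polynomial

private theorem rs_final_X_pow_ne (n : ℕ) (hn : n ≠ 0) : (RatFunc.X : RatFunc ℚ) ^ n ≠ 1 := by
  intro h
  have h1 : algebraMap ℚ[X] (RatFunc ℚ) (X ^ n) = algebraMap ℚ[X] (RatFunc ℚ) 1 := by
    rw [map_pow, RatFunc.algebraMap_X, h, map_one]
  have h2 : (X ^ n : ℚ[X]) = 1 := RatFunc.algebraMap_injective ℚ h1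
  have h3 := congrArg Polynomial.natDegree h2
  rw [Polynomial.natDegree_X_pow, Polynomial.natDegree_one] at h3
  exact hn h3

theorem p_rs_final (h1 : S_rs_mat) (h2 : S_rs_cf) (h3 : S_rs_nrm) (h4 : S_rs_exp)
    (h5 : S_good_of_cf) (h6 : S_J_zero) (h7 : S_J_sum) (h8 : S_J_unique) : S_rs_final := by
  intro hpos ι M N _ _ _ _ _ P _ _ _ b B hB
  classical
  obtain ⟨c, hc⟩ := h1 P b B hB
  have hcf : CF c := h2 P b B hB c hc
  have hn : Nrm c := h3 P b B hB c hc
  obtain ⟨e1, e2⟩ := h4 P b B c hc hcf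
  have hg : GoodForm c := h5 c hcf
  have hq : ∀ a, rq b B a = vpm c (RatFunc.X : RatFunc ℚ) a := by
    intro a
    unfold rq vpm vp
    refine Finset.prod_congr rfl fun i _ => Finset.prod_congr rfl fun j _ => ?_
    rw [(e2 i).1, pow_mul]
  have hv : ∀ a : b.support → ℕ, a ≠ 0 → (RatFunc.X : RatFunc ℚ) ^ bq c a ≠ 1 :=
    fun a ha => rs_final_X_pow_ne _ (hg.bq_pos a ha).ne'
  refine ⟨fun a => (e1 a).2, fun i => (e2 i).2, ⟨J c RatFunc.X, ?_, ?_⟩, ?_⟩
  · exact h6 c _
  · intro a
    by_cases ha : a = 0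
    · subst ha
      have hI : ∀ β ∈ Finset.Iic (0 : b.support → ℕ), β = 0 := by
        intro β hβ
        rw [Finset.mem_Iic] at hβ
        exact le_antisymm hβ (fun i => Nat.zero_le _)
      rw [Finset.sum_eq_single (0 : b.support → ℕ)]
      · have hq0 : rq b B 0 = 1 := by
          unfold rq
          simp
        have hb0 : hf b B 0 = 0 := by
          unfold hf rvec
          simp
        rw [tsub_self, hq0, hb0]
        simp
      · intro β hβ hne
        exact absurd (hI β hβ) hne
      · intro h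
        exact absurd (Finset.mem_Iic.2 le_rfl) h
    · have hs := h7 c (RatFunc.X : RatFunc ℚ) a ha (hv a ha)
      rw [hs]
      refine Finset.sum_congr ?_ fun β _ => ?_
      · congr
      · rw [(e1 β).1, hq]
  · intro J' hJ a
    have hJ' : ∀ a, J' a = J c RatFunc.X a := by
      refine h8 c _ hv J' hJ.zero fun a ha => ?_
      rw [hJ.eq a]
      refine Finset.sum_congr ?_ fun β _ => ?_
      · congr
      · rw [(e1 β).1, hq]
    obtain ⟨f, hf⟩ := hpos c hcf hn a
    exact ⟨f, by rw [hq, hJ' a]; exact hf⟩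

end J4c
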