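import Pool.Agent.Lib.J4c.RSX

/-!
[J4 rs_form] Every root system has a normalised invariant form.
-/

set_option autoImplicit false

namespace J4c

private theorem rs_form_zero {ι M N : Type} [AddCommGroup M] [Module ℚ M] [AddCommGroup N]
    [Module ℚ N] (P : RootPairing ι ℚ M N) {i j : ι} (h : P.pairing i j ≠ 0) :
    P.pairing j i ≠ 0 := fun h' => h (P.pairing_eq_zero_iff'.mp h')

private theorem rs_form_pair {ι M N : Type} [AddCommGroup M] [Module ℚ M] [AddCommGroup N]
    [Module ℚ N] (P : RootPairing ι ℚ M N) (i j k : ι) :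
    P.pairing (P.reflectionPerm i j) k = P.pairing j k - P.pairing j i * P.pairing i k := by
  have h1 : P.root (P.reflectionPerm i j) = P.root j - P.pairing j i • P.root i := by
    rw [P.root_reflectionPerm, P.reflection_apply_root]
  rw [← P.root_coroot'_eq_pairing, h1, map_sub, map_smul, P.root_coroot'_eq_pairing,
    P.root_coroot'_eq_pairing, smul_eq_mul]

theorem p_rs_form : S_rs_form := by
  classical
  intro ι M N _ _ _ _ _ P _ _ _
  have : Fintype ι := Fintype.ofFinite ι
  obtain ⟨rho, hrho⟩ : ∃ rho : ι → ℚ, ∀ i, rho i = ∑ j, P.pairing i j ^ 2 :=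
    ⟨_, fun i => rfl⟩
  have hii : ∀ i, P.pairing i i ≠ 0 := by
    intro i
    rw [P.pairing_same]
    exact two_ne_zero
  have hpos : ∀ i, 0 < rho i := by
    intro i
    rw [hrho]
    refine Finset.sum_pos' (fun j _ => sq_nonneg _) ⟨i, Finset.mem_univ i, ?_⟩
    have := hii i
    positivity
  have hinv : ∀ i j, rho (P.reflectionPerm i j) = rho j := by
    intro i j
    rw [hrho, hrho, ← Equiv.sum_comp (P.reflectionPerm i)]
    refine Finset.sum_congr rfl fun k _ => ?_
    rw [P.pairing_reflectionPerm, P.reflectionPerm_self]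
  have hmin : ∀ i, ∃ j, P.pairing i j ≠ 0 ∧ ∀ k, P.pairing i k ≠ 0 → rho j ≤ rho k := by
    intro i
    obtain ⟨j, hj, hj2⟩ := Set.exists_min_image {k | P.pairing i k ≠ 0} rho (Set.toFinite _)
      ⟨i, hii i⟩
    exact ⟨j, hj, hj2⟩
  choose t ht1 ht2 using hmin
  have hle : ∀ i i', P.pairing i i' ≠ 0 → rho (t i') ≤ rho (t i) := by
    intro i i' hi
    by_cases hj : P.pairing i' (t i) = 0
    · have hj2 : P.pairing (t i) i' = 0 := P.pairing_eq_zero_iff'.mp hj
      have h1 : P.pairing (P.reflectionPerm i (t i)) i' ≠ 0 := by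
        rw [rs_form_pair, hj2, zero_sub]
        exact neg_ne_zero.mpr (mul_ne_zero (rs_form_zero P (ht1 i)) hi)
      have h2 := ht2 i' _ (rs_form_zero P h1)
      rwa [hinv] at h2
    · exact ht2 i' _ hj
  have heq : ∀ i i', P.pairing i i' ≠ 0 → rho (t i') = rho (t i) := fun i i' hi =>
    le_antisymm (hle i i' hi) (hle i' i (rs_form_zero P hi))
  obtain ⟨w, hw⟩ : ∃ w : ι → ℚ, ∀ i, w i = 2 / rho (t i) := ⟨_, fun i => rfl⟩
  have hwpos : ∀ i, 0 < w i := by
    intro i
    rw [hw]
    exact div_pos two_pos (hpos _)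
  have hweq : ∀ i i', P.pairing i i' ≠ 0 → w i' = w i := by
    intro i i' hi
    rw [hw, hw, heq i i' hi]
  have hwinv : ∀ k i, w (P.reflectionPerm k i) = w i := by
    intro k i
    by_cases hik : P.pairing i k = 0
    · have h1 : P.root (P.reflectionPerm k i) = P.root i := by
        rw [P.root_reflectionPerm, P.reflection_apply_root, hik, zero_smul, sub_zero]
      rw [P.root.injective h1]
    · have h1 : P.pairing (P.reflectionPerm k i) k ≠ 0 := by
        rw [← P.pairing_reflectionPerm, P.pairing_reflectionPerm_self_right]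
        exact neg_ne_zero.mpr hik
      rw [← hweq _ _ h1, hweq _ _ hik]
  obtain ⟨F, hF⟩ : ∃ F : LinearMap.BilinForm ℚ M, ∀ x y,
      F x y = ∑ i, w i * (P.coroot' i x * P.coroot' i y) := by
    refine ⟨∑ i, w i • (P.coroot' i).smulRight (P.coroot' i), ?_⟩
    intro x y
    simp
  have hroot : ∀ i, F (P.root i) (P.root i) = w i * rho i := by
    intro i
    rw [hF, hrho, Finset.mul_sum]
    refine Finset.sum_congr rfl fun j _ => ?_
    rw [P.root_coroot'_eq_pairing]
    by_cases hij : P.pairing i j = 0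
    · rw [hij]
      ring
    · rw [hweq i j hij]
      ring
  refine ⟨⟨F, ?_, ?_, ?_⟩, ?_⟩
  · rw [LinearMap.isSymm_def]
    intro x y
    rw [RingHom.id_apply, hF, hF]
    refine Finset.sum_congr rfl fun j _ => ?_
    ring
  · intro i
    rw [hroot]
    exact (mul_pos (hwpos i) (hpos i)).ne'
  · intro k x y
    rw [hF, hF, ← Equiv.sum_comp (P.reflectionPerm k)
      (fun i => w i * (P.coroot' i x * P.coroot' i y))]
    refine Finset.sum_congr rfl fun i _ => ?_
    rw [hwinv, P.coroot'_reflection, P.coroot'_reflection]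
  · intro i hi
    change F (P.root i) (P.root i) = 2
    have h1 : ∀ j, P.pairing i j ≠ 0 → rho i ≤ rho j := by
      intro j hj
      have h2 : F (P.root i) (P.root i) ≤ F (P.root j) (P.root j) := hi j hj
      rw [hroot, hroot, hweq i j hj] at h2
      exact le_of_mul_le_mul_left h2 (hwpos i)
    have h2 : rho i = rho (t i) := le_antisymm (h1 _ (ht1 i)) (ht2 i i (hii i))
    rw [hroot, hw, h2]
    exact div_mul_cancel₀ _ (hpos (t i)).ne'

end J4c
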