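import Pool.Agent.Lib.J4c.RSStm

/-!
MP_4c1f79_al: the Gram matrix of the simple roots has integral entries (piece rs_mat).
-/

set_option autoImplicit false

namespace J4c

theorem p_rs_mat (h1 : S_rs_norm) : S_rs_mat := by
  intro ι M N _ _ _ _ _ P _ _ _ b B hB
  choose n hn hn2 using fun i : ι => (h1 P B hB i).1
  choose z hz using fun i j : ι => P.exists_value (S := ℤ) i j
  refine ⟨fun i j => z i j * (n j : ℤ), ?_⟩
  intro i j
  have e := B.two_mul_apply_root_root (i : ι) (j : ι)
  have e2 := hz (i : ι) (j : ι)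
  rw [hn2 (j : ι), ← e2] at e
  have e3 : (algebraMap ℤ ℚ) (z i j) = (z i j : ℚ) := rfl
  rw [e3] at e
  push_cast
  linarith

end J4c
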