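import Pool.Agent.Lib.J4c.RSStm

/-!
[J4 rs_norm] The norm of a root is `2`, `4` or `6`.
-/

set_option autoImplicit false

namespace J4c

private theorem rs_norm_ratio {ι M N : Type} [Finite ι] [AddCommGroup M] [Module ℚ M]
    [AddCommGroup N] [Module ℚ N] (P : RootPairing ι ℚ M N) [P.IsCrystallographic] [P.IsReduced]
    (B : P.InvariantForm) (i k : ι) (hik : P.pairing i k ≠ 0)
    (hk : 0 < B.form (P.root k) (P.root k))
    (hlt : B.form (P.root k) (P.root k) < B.form (P.root i) (P.root i)) :
    B.form (P.root i) (P.root i) = 2 * B.form (P.root k) (P.root k) ∨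
      B.form (P.root i) (P.root i) = 3 * B.form (P.root k) (P.root k) := by
  have h1 : P.pairing k i * B.form (P.root i) (P.root i) =
      P.pairing i k * B.form (P.root k) (P.root k) := B.pairing_mul_eq_pairing_mul_swap i k
  have h2 := P.pairingIn_pairingIn_mem_set_of_isCrystal_of_isRed i k
  have h3 : ((P.pairingIn ℤ i k : ℤ) : ℚ) = P.pairing i k := P.algebraMap_pairingIn ℤ i k
  have h4 : ((P.pairingIn ℤ k i : ℤ) : ℚ) = P.pairing k i := P.algebraMap_pairingIn ℤ k i
  rw [← h3, ← h4] at h1
  rw [← h3] at hik
  simp only [Set.mem_insert_iff, Set.mem_singleton_iff, Prod.mk.injEq] at h2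
  rcases h2 with h | h | h | h | h | h | h | h | h | h | h | h | h <;>
    rw [h.1, h.2] at h1 <;> push_cast at h1
  · rw [h.1] at hik
    exact absurd (by norm_num) hik
  · exfalso; linarith
  · exfalso; linarith
  · exfalso; linarith
  · left; linarith
  · exfalso; linarith
  · left; linarith
  · exfalso; linarith
  · right; linarith
  · exfalso; linarith
  · right; linarith
  · exfalso; linarith
  · exfalso; linarith

theorem p_rs_norm (h1 : S_rs_pos) : S_rs_norm := by
  intro ι M N _ _ _ _ _ P _ _ _ B hB i
  have hpos : ∀ k, 0 < B.form (P.root k) (P.root k) := fun k => h1 P B hB k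
  by_cases hs : Short B i
  · refine ⟨⟨1, Or.inl rfl, ?_⟩, i, ?_, hB i hs⟩
    · rw [hB i hs]
      norm_num
    · rw [P.pairing_same i]
      norm_num
  · unfold Short at hs
    push Not at hs
    obtain ⟨k, hik, hlt⟩ := hs
    have hks : Short B k := by
      by_contra hk
      unfold Short at hk
      push Not at hk
      obtain ⟨l, hkl, hlt2⟩ := hk
      have r1 := rs_norm_ratio P B i k hik (hpos k) hlt
      have r2 := rs_norm_ratio P B k l hkl (hpos l) hlt2
      have hl := hpos l
      have h4 : 4 * B.form (P.root l) (P.root l) ≤ B.form (P.root i) (P.root i) := by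
        rcases r1 with r1 | r1 <;> rcases r2 with r2 | r2 <;> rw [r1, r2] <;> linarith
      by_cases hil : P.pairing i l = 0
      · have e1 : P.root (P.reflectionPerm k l) = P.root l - P.pairing l k • P.root k := by
          rw [P.root_reflectionPerm k l, P.reflection_apply_root k l]
        have e2 : B.form (P.root (P.reflectionPerm k l)) (P.root (P.reflectionPerm k l)) =
            B.form (P.root l) (P.root l) := by
          rw [P.root_reflectionPerm k l, B.apply_reflection_reflection]
        have e3 : B.form (P.root l) (P.root i) = 0 := by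
          have := B.two_mul_apply_root_root l i
          rw [P.pairing_eq_zero_iff'.mp hil] at this
          linarith
        have e4 : B.form (P.root k) (P.root i) ≠ 0 := by
          intro h0
          have := (B.apply_root_root_zero_iff k i).mp h0
          exact hik (P.pairing_eq_zero_iff'.mp this)
        have hlk : P.pairing l k ≠ 0 := fun h0 => hkl (P.pairing_eq_zero_iff'.mp h0)
        have e5 : B.form (P.root (P.reflectionPerm k l)) (P.root i) =
            - (P.pairing l k * B.form (P.root k) (P.root i)) := by
          rw [e1, map_sub, map_smul, LinearMap.sub_apply, LinearMap.smul_apply, e3, smul_eq_mul]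
          ring
        have e6 : P.pairing i (P.reflectionPerm k l) ≠ 0 := by
          intro h0
          have h5 := P.pairing_eq_zero_iff'.mp h0
          have h6 := (B.apply_root_root_zero_iff (P.reflectionPerm k l) i).mpr h5
          rw [e5] at h6
          exact (mul_ne_zero hlk e4) (neg_eq_zero.mp h6)
        have r3 := rs_norm_ratio P B i (P.reflectionPerm k l) e6 (hpos _) (by rw [e2]; linarith)
        rw [e2] at r3
        rcases r3 with r3 | r3 <;> linarith
      · have r3 := rs_norm_ratio P B i l hil (hpos l) (by linarith)
        rcases r3 with r3 | r3 <;> linarith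
    have hk2 := hB k hks
    have r1 := rs_norm_ratio P B i k hik (hpos k) hlt
    rw [hk2] at r1
    refine ⟨?_, k, hik, hk2⟩
    rcases r1 with r1 | r1
    · refine ⟨2, Or.inr (Or.inl rfl), ?_⟩
      rw [r1]
      norm_num
    · refine ⟨3, Or.inr (Or.inr rfl), ?_⟩
      rw [r1]
      norm_num

end J4c
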