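import Pool.Agent.Lib.J4c.RSStm

/-!
[J4 rs_nrm] Every component of the matrix of a base contains an element of norm `2`.
-/

set_option autoImplicit false

namespace J4c

private theorem rs_nrm_lk_symm {κ : Type} (c : κ → κ → ℤ) (hs : ∀ i j, c i j = c j i) {x y : κ}
    (h : Lk c x y) : Lk c y x := by
  unfold Lk at h ⊢
  induction h with
  | refl => exact Relation.ReflTransGen.refl
  | tail _ h2 ih => exact Relation.ReflTransGen.head (by rw [hs]; exact h2) ih

private theorem rs_nrm_span {κ V : Type} [AddCommGroup V] [Module ℚ V]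
    (B : LinearMap.BilinForm ℚ V) (r : κ → V) (S : Set κ) (x y : V)
    (hy : y ∈ Submodule.span ℚ (r '' S)) (h : ∀ l ∈ S, B x (r l) = 0) : B x y = 0 := by
  have h1 : Submodule.span ℚ (r '' S) ≤ LinearMap.ker (B x) := by
    rw [Submodule.span_le]
    rintro _ ⟨l, hl, rfl⟩
    exact h l hl
  exact h1 hy

private theorem rs_nrm_claim {ι M N : Type} [Finite ι] [AddCommGroup M] [Module ℚ M]
    [AddCommGroup N] [Module ℚ N] (P : RootPairing ι ℚ M N) [P.IsRootSystem]
    [P.IsCrystallographic] [P.IsReduced] (b : P.Base) (B : P.InvariantForm)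
    (c : b.support → b.support → ℤ)
    (hc : ∀ i j : b.support, (c i j : ℚ) = B.form (P.root i) (P.root j)) (i : ι) :
    ∃ k : b.support, B.form (P.root i) (P.root i) = B.form (P.root k) (P.root k) ∧
      P.root i ∈ Submodule.span ℚ ((fun l : b.support => P.root l) '' {l | Lk c k l}) := by
  have hsym : ∀ x y, B.form x y = B.form y x := fun x y => B.symm.eq x y
  refine b.induction_reflect i (p := fun i => ∃ k : b.support,
    B.form (P.root i) (P.root i) = B.form (P.root k) (P.root k) ∧
      P.root i ∈ Submodule.span ℚ ((fun l : b.support => P.root l) '' {l | Lk c k l})) ?_ ?_ ?_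
  · rintro i ⟨k, hk1, hk2⟩
    refine ⟨k, ?_, ?_⟩
    · rw [P.root_reflectionPerm, B.apply_reflection_reflection]
      exact hk1
    · rw [P.root_reflectionPerm, P.reflection_apply_self]
      exact Submodule.neg_mem _ hk2
  · intro i hi
    exact ⟨⟨i, hi⟩, rfl, Submodule.subset_span ⟨⟨i, hi⟩, Relation.ReflTransGen.refl, rfl⟩⟩
  · rintro i j ⟨k, hk1, hk2⟩ hj
    by_cases hl : Lk c k ⟨j, hj⟩
    · refine ⟨k, ?_, ?_⟩
      · rw [P.root_reflectionPerm, B.apply_reflection_reflection]
        exact hk1
      · rw [P.root_reflectionPerm, P.reflection_apply_root]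
        refine Submodule.sub_mem _ hk2 (Submodule.smul_mem _ _ ?_)
        exact Submodule.subset_span ⟨⟨j, hj⟩, hl, rfl⟩
    · have h0 : B.form (P.root j) (P.root i) = 0 := by
        refine rs_nrm_span B.form (fun l : b.support => P.root l) {l | Lk c k l} _ _ hk2 ?_
        intro l hl'
        show B.form (P.root j) (P.root l) = 0
        have h1 := hc ⟨j, hj⟩ l
        rw [← h1]
        have h2 : c ⟨j, hj⟩ l = 0 := by
          by_contra hne
          apply hl
          refine Relation.ReflTransGen.tail hl' ?_
          intro h3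
          apply hne
          have h4 : (c ⟨j, hj⟩ l : ℚ) = (c l ⟨j, hj⟩ : ℚ) := by rw [hc, hc, hsym]
          have h5 : c ⟨j, hj⟩ l = c l ⟨j, hj⟩ := by exact_mod_cast h4
          rw [h5]
          exact h3
        rw [h2]
        simp
      have h3 : P.pairing i j = 0 := by
        have h4 := B.two_mul_apply_root_root i j
        rw [hsym, h0, mul_zero] at h4
        exact (mul_eq_zero.mp h4.symm).resolve_right (B.ne_zero j)
      have h5 : P.root (P.reflectionPerm j i) = P.root i := by
        rw [P.root_reflectionPerm, P.reflection_apply_root, h3, zero_smul, sub_zero]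
      refine ⟨k, ?_, ?_⟩
      · rw [h5]
        exact hk1
      · rw [h5]
        exact hk2

theorem p_rs_nrm (h1 : S_rs_norm) : S_rs_nrm := by
  intro ι M N _ _ _ _ _ P _ _ _ b B hB c hc x
  have hsym : ∀ x y, B.form x y = B.form y x := fun x y => B.symm.eq x y
  have hcs : ∀ i j, c i j = c j i := by
    intro i j
    have h4 : (c i j : ℚ) = c j i := by rw [hc, hc, hsym]
    exact_mod_cast h4
  obtain ⟨-, j, hj, hj2⟩ := h1 P B hB (x : ι)
  obtain ⟨k, hk1, hk2⟩ := rs_nrm_claim P b B c hc j
  refine ⟨k, ?_, ?_⟩
  · by_contra hcon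
    have h2 : B.form (P.root x) (P.root j) = 0 := by
      refine rs_nrm_span B.form (fun l : b.support => P.root l) {l | Lk c k l} _ _ hk2 ?_
      intro l hl
      show B.form (P.root x) (P.root l) = 0
      rw [← hc x l]
      have h3 : c x l = 0 := by
        by_contra hne
        exact hcon (Relation.ReflTransGen.head hne (rs_nrm_lk_symm c hcs hl))
      rw [h3]
      simp
    have h4 := B.two_mul_apply_root_root (x : ι) j
    rw [h2, hj2, mul_zero] at h4
    exact hj ((mul_eq_zero.mp h4.symm).resolve_right two_ne_zero)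
  · have h5 : (c k k : ℚ) = 2 := by rw [hc, ← hk1, hj2]
    exact_mod_cast h5

end J4c
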