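import Pool.Agent.Lib.J4c.RSStm

/-!
[J4 rs_pos] All roots have positive norm.
-/

set_option autoImplicit false

namespace J4c

private theorem rs_pos_step {ι M N : Type} [Finite ι] [AddCommGroup M] [Module ℚ M]
    [AddCommGroup N] [Module ℚ N] (P : RootPairing ι ℚ M N) [P.IsCrystallographic]
    (B : P.InvariantForm) (i j : ι) (hij : P.pairing i j ≠ 0)
    (hi : B.form (P.root i) (P.root i) < 0) : B.form (P.root j) (P.root j) < 0 := by
  have h1 : P.pairing j i * B.form (P.root i) (P.root i) =
      P.pairing i j * B.form (P.root j) (P.root j) := B.pairing_mul_eq_pairing_mul_swap i j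
  have hji : P.pairing j i ≠ 0 := fun h => hij (P.pairing_eq_zero_iff'.mp h)
  have h2 : 0 ≤ P.pairing i j * P.pairing j i := by
    have h3 := P.coxeterWeightIn_mem_set_of_isCrystallographic i j
    have h4 : (0 : ℤ) ≤ P.coxeterWeightIn ℤ i j := by
      simp only [Set.mem_insert_iff, Set.mem_singleton_iff] at h3
      omega
    have h5 : ((P.coxeterWeightIn ℤ i j : ℤ) : ℚ) = P.pairing i j * P.pairing j i := by
      have h6 := P.algebraMap_coxeterWeightIn ℤ i j
      rw [RootPairing.coxeterWeight] at h6
      exact h6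
    rw [← h5]
    exact_mod_cast h4
  have h3 : 0 < P.pairing i j * P.pairing j i :=
    lt_of_le_of_ne h2 (mul_ne_zero hij hji).symm
  have h4 : 0 < P.pairing i j ^ 2 := by positivity
  have h5 : P.pairing i j ^ 2 * B.form (P.root j) (P.root j) =
      (P.pairing i j * P.pairing j i) * B.form (P.root i) (P.root i) := by
    have h6 : P.pairing i j ^ 2 * B.form (P.root j) (P.root j) =
        P.pairing i j * (P.pairing i j * B.form (P.root j) (P.root j)) := by ring
    rw [h6, ← h1]
    ring
  have h6 : P.pairing i j ^ 2 * B.form (P.root j) (P.root j) < 0 := by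
    rw [h5]
    exact mul_neg_of_pos_of_neg h3 hi
  exact neg_of_mul_neg_right h6 h4.le

theorem p_rs_pos : S_rs_pos := by
  intro ι M N _ _ _ _ _ P _ _ _ B hB i
  by_contra hcon
  have hi : B.form (P.root i) (P.root i) < 0 :=
    lt_of_le_of_ne (not_lt.mp hcon) (B.ne_zero i)
  have hfin : {k : ι | B.form (P.root k) (P.root k) < 0}.Finite := Set.toFinite _
  obtain ⟨j, hj, hmin⟩ := Set.exists_min_image _ (fun k => B.form (P.root k) (P.root k)) hfin
    ⟨i, hi⟩
  have hshort : Short B j := by
    intro k hk
    exact hmin k (rs_pos_step P B j k hk hj)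
  have h2 := hB j hshort
  have h3 : B.form (P.root j) (P.root j) < 0 := hj
  rw [h2] at h3
  linarith

end J4c
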