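import Pool.Agent.Lib.J4c.NumStm

/-!
MP_4c1f79_al, piece J_ratio: `J b v a` is a fixed rational function of `v`.
-/

set_option autoImplicit false
set_option linter.unusedVariables false

namespace J4c

open Polynomial

/-- `f` and `g` are given by the same quotient of polynomials -/
def J_ratio_R (f : ℚ → ℚ) (g : RatFunc ℚ) : Prop :=
  ∃ P D : Polynomial ℚ, D.eval 0 = 1 ∧
    (∀ v : ℚ, 0 < v → v < 1 → D.eval v ≠ 0 ∧ f v = P.eval v / D.eval v) ∧
    g = algebraMap (Polynomial ℚ) (RatFunc ℚ) P / algebraMap (Polynomial ℚ) (RatFunc ℚ) D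

theorem J_ratio_alg_ne {D : Polynomial ℚ} (h : D.eval 0 = 1) :
    algebraMap (Polynomial ℚ) (RatFunc ℚ) D ≠ 0 := by
  intro h0
  have h1 : D = 0 := by
    apply RatFunc.algebraMap_injective ℚ
    rw [h0, map_zero]
  rw [h1] at h
  simp at h

theorem J_ratio_poly (P : Polynomial ℚ) :
    J_ratio_R (fun v => P.eval v) (algebraMap (Polynomial ℚ) (RatFunc ℚ) P) := by
  refine ⟨P, 1, by simp, ?_, ?_⟩
  · intro v _ _
    simp
  · simp

theorem J_ratio_inv (D : Polynomial ℚ) (h0 : D.eval 0 = 1)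
    (h1 : ∀ v : ℚ, 0 < v → v < 1 → D.eval v ≠ 0) :
    J_ratio_R (fun v => (D.eval v)⁻¹) ((algebraMap (Polynomial ℚ) (RatFunc ℚ) D)⁻¹) := by
  refine ⟨1, D, h0, ?_, ?_⟩
  · intro v hv0 hv1
    refine ⟨h1 v hv0 hv1, ?_⟩
    simp
  · simp

theorem J_ratio_mul {f1 f2 : ℚ → ℚ} {g1 g2 : RatFunc ℚ} (h1 : J_ratio_R f1 g1)
    (h2 : J_ratio_R f2 g2) : J_ratio_R (fun v => f1 v * f2 v) (g1 * g2) := by
  obtain ⟨P1, D1, a1, b1, c1⟩ := h1
  obtain ⟨P2, D2, a2, b2, c2⟩ := h2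
  refine ⟨P1 * P2, D1 * D2, by rw [eval_mul, a1, a2, one_mul], ?_, ?_⟩
  · intro v hv0 hv1
    obtain ⟨d1, e1⟩ := b1 v hv0 hv1
    obtain ⟨d2, e2⟩ := b2 v hv0 hv1
    refine ⟨by rw [eval_mul]; exact mul_ne_zero d1 d2, ?_⟩
    change f1 v * f2 v = _
    rw [e1, e2, eval_mul, eval_mul, div_mul_div_comm]
  · rw [c1, c2, map_mul, map_mul, div_mul_div_comm]

theorem J_ratio_add {f1 f2 : ℚ → ℚ} {g1 g2 : RatFunc ℚ} (h1 : J_ratio_R f1 g1)
    (h2 : J_ratio_R f2 g2) : J_ratio_R (fun v => f1 v + f2 v) (g1 + g2) := by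
  obtain ⟨P1, D1, a1, b1, c1⟩ := h1
  obtain ⟨P2, D2, a2, b2, c2⟩ := h2
  refine ⟨P1 * D2 + D1 * P2, D1 * D2, by rw [eval_mul, a1, a2, one_mul], ?_, ?_⟩
  · intro v hv0 hv1
    obtain ⟨d1, e1⟩ := b1 v hv0 hv1
    obtain ⟨d2, e2⟩ := b2 v hv0 hv1
    refine ⟨by rw [eval_mul]; exact mul_ne_zero d1 d2, ?_⟩
    change f1 v + f2 v = _
    rw [e1, e2, eval_add, eval_mul, eval_mul, eval_mul, div_add_div _ _ d1 d2]
  · rw [c1, c2, map_add, map_mul, map_mul, map_mul,
      div_add_div _ _ (J_ratio_alg_ne a1) (J_ratio_alg_ne a2)]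

theorem J_ratio_sum {α : Type} (s : Finset α) (f : α → ℚ → ℚ) (g : α → RatFunc ℚ)
    (h : ∀ x ∈ s, J_ratio_R (f x) (g x)) :
    J_ratio_R (fun v => ∑ x ∈ s, f x v) (∑ x ∈ s, g x) := by
  classical
  induction s using Finset.induction_on with
  | empty =>
    have h0 := J_ratio_poly 0
    simpa using h0
  | insert x s hx ih =>
    have h1 := J_ratio_add (h x (Finset.mem_insert_self x s))
      (ih fun y hy => h y (Finset.mem_insert_of_mem hy))
    simpa only [Finset.sum_insert hx] using h1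

/-- the polynomial `(X)_a` -/
noncomputable def J_ratio_V {ι : Type} [Fintype ι] (b : ι → ι → ℤ) (a : ι → ℕ) : Polynomial ℚ :=
  ∏ i, ∏ j ∈ Finset.range (a i), (1 - (X ^ bd b i) ^ (j + 1))

theorem J_ratio_V_eval {ι : Type} [Fintype ι] (b : ι → ι → ℤ) (a : ι → ℕ) (v : ℚ) :
    (J_ratio_V b a).eval v = vpm b v a := by
  unfold J_ratio_V vpm vp
  rw [eval_prod]
  apply Finset.prod_congr rfl
  intro i _
  rw [eval_prod]
  apply Finset.prod_congr rfl
  intro j _
  simp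

theorem J_ratio_V_alg {ι : Type} [Fintype ι] (b : ι → ι → ℤ) (a : ι → ℕ) :
    algebraMap (Polynomial ℚ) (RatFunc ℚ) (J_ratio_V b a) = vpm b RatFunc.X a := by
  unfold J_ratio_V vpm vp
  rw [map_prod]
  apply Finset.prod_congr rfl
  intro i _
  rw [map_prod]
  apply Finset.prod_congr rfl
  intro j _
  rw [map_sub, map_one, map_pow, map_pow, RatFunc.algebraMap_X]

theorem J_ratio_bd {ι : Type} [Fintype ι] {b : ι → ι → ℤ} (hb : GoodForm b) (i : ι) :
    0 < bd b i := by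
  have h1 := hb.even i
  have h2 := hb.pos i
  unfold bd
  omega

theorem J_ratio_pow_ne {v : ℚ} (h0 : 0 < v) (h1 : v < 1) {m : ℕ} (hm : 0 < m) :
    1 - v ^ m ≠ 0 := by
  have h2 : v ^ m < 1 := pow_lt_one₀ h0.le h1 hm.ne'
  intro h
  linarith

theorem J_ratio_V_zero {ι : Type} [Fintype ι] {b : ι → ι → ℤ} (hb : GoodForm b) (a : ι → ℕ) :
    (J_ratio_V b a).eval 0 = 1 := by
  rw [J_ratio_V_eval]
  unfold vpm vp
  apply Finset.prod_eq_one
  intro i _
  apply Finset.prod_eq_one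
  intro j _
  rw [zero_pow (J_ratio_bd hb i).ne', zero_pow (Nat.succ_ne_zero j), sub_zero]

theorem J_ratio_V_ne {ι : Type} [Fintype ι] {b : ι → ι → ℤ} (hb : GoodForm b) (a : ι → ℕ)
    (v : ℚ) (h0 : 0 < v) (h1 : v < 1) : (J_ratio_V b a).eval v ≠ 0 := by
  rw [J_ratio_V_eval]
  unfold vpm vp
  rw [Finset.prod_ne_zero_iff]
  intro i _
  rw [Finset.prod_ne_zero_iff]
  intro j _
  rw [← pow_mul]
  exact J_ratio_pow_ne h0 h1 (Nat.mul_pos (J_ratio_bd hb i) (Nat.succ_pos j))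

theorem J_ratio_main (h1 : S_J_zero) (h2 : S_J_rec) {ι : Type} [Fintype ι] [DecidableEq ι]
    (b : ι → ι → ℤ) (hb : GoodForm b) (a : ι → ℕ) :
    J_ratio_R (fun v => J b v a) (J b (RatFunc.X : RatFunc ℚ) a) := by
  induction a using WellFoundedLT.induction with
  | ind a ih =>
  by_cases ha : a = 0
  · subst ha
    have h := J_ratio_poly 1
    have e1 : (fun v : ℚ => J b v 0) = fun v => (1 : Polynomial ℚ).eval v := by
      funext v
      rw [h1 b v, eval_one]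
    rw [e1, h1 b (RatFunc.X : RatFunc ℚ)]
    rw [map_one] at h
    exact h
  · have e1 : (fun v : ℚ => J b v a) = fun v => (1 - v ^ bq b a)⁻¹ *
        ∑ β ∈ Finset.Iio a, v ^ bq b β / vpm b v (a - β) * J b v β := by
      funext v
      exact h2 b v a ha
    rw [e1, h2 b (RatFunc.X : RatFunc ℚ) a ha]
    apply J_ratio_mul (f1 := fun v : ℚ => (1 - v ^ bq b a)⁻¹)
      (f2 := fun v : ℚ => ∑ β ∈ Finset.Iio a, v ^ bq b β / vpm b v (a - β) * J b v β)
    · have h := J_ratio_inv (1 - X ^ bq b a)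
        (by simp [(hb.bq_pos a ha).ne']) (by
          intro v hv0 hv1
          have := J_ratio_pow_ne hv0 hv1 (hb.bq_pos a ha)
          simpa using this)
      rw [map_sub, map_one, map_pow, RatFunc.algebraMap_X] at h
      simpa using h
    · apply J_ratio_sum
      intro β hβ
      apply J_ratio_mul (f1 := fun v : ℚ => v ^ bq b β / vpm b v (a - β))
        (f2 := fun v : ℚ => J b v β)
      · simp only [div_eq_mul_inv]
        apply J_ratio_mul (f1 := fun v : ℚ => v ^ bq b β)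
          (f2 := fun v : ℚ => (vpm b v (a - β))⁻¹)
        · have h := J_ratio_poly (X ^ bq b β)
          rw [map_pow, RatFunc.algebraMap_X] at h
          simpa using h
        · have h := J_ratio_inv (J_ratio_V b (a - β)) (J_ratio_V_zero hb _)
            (J_ratio_V_ne hb _)
          rw [J_ratio_V_alg] at h
          simpa only [J_ratio_V_eval] using h
      · exact ih β (Finset.mem_Iio.1 hβ)

theorem p_J_ratio (h1 : S_J_zero) (h2 : S_J_rec) : S_J_ratio := by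
  intro ι _ _ b hb a
  obtain ⟨P, D, hP, hD, hE⟩ := J_ratio_main h1 h2 b hb a
  exact ⟨P, D, hP, hD, hE⟩

end J4c
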