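import Pool.Agent.Lib.J4c.NumStm

/-!
MP_4c1f79_al, piece good_B: the form of type `B_{n+2}` is good.
-/

set_option autoImplicit false

namespace J4c

private theorem good_B_sum (N k : ℕ) (f : ℕ → ℤ) :
    ∑ j : Fin N, (if j.val = k then f j.val else 0) = if k < N then f k else 0 := by
  rw [Fin.sum_univ_eq_sum_range (fun j => if j = k then f j else 0) N, Finset.sum_ite_eq']
  simp only [Finset.mem_range]

private theorem good_B_form (n : ℕ) (i j : Fin (n + 2)) :
    (DT.B n).form i j = (if j.val = i.val then (if i.val = n + 1 then 2 else 4) else 0)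
      + (if j.val = i.val - 1 then (if 0 < i.val then -2 else 0) else 0)
      + (if j.val = i.val + 1 then -2 else 0) := by
  have hi := i.2
  have hj := j.2
  show (CartanMatrix.B (n + 2)) i j * (((if j.val = n + 1 then 1 else 2 : ℕ)) : ℤ) = _
  simp only [CartanMatrix.B, Matrix.of_apply, Fin.ext_iff]
  split_ifs <;> omega

theorem p_good_B (h1 : S_good_of_vec) : S_good_B := by
  intro n
  refine h1 (DT.B n).form ?_ ?_ ?_ ?_
    (fun i => (((i.val : ℤ) + 1) * (2 * (n + 2) - i.val))) ?_ ?_
  · intro i j
    have hi : i.val < n + 2 := i.2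
    have hj : j.val < n + 2 := j.2
    rw [good_B_form, good_B_form]
    split_ifs <;> omega
  · intro i
    rw [good_B_form]
    split_ifs <;> omega
  · intro i
    rw [good_B_form]
    split_ifs <;> omega
  · intro i j hij
    have hij' : i.val ≠ j.val := fun e => hij (Fin.ext e)
    rw [good_B_form]
    split_ifs <;> omega
  · intro i
    have hi : i.val < n + 2 := i.2
    refine mul_pos (by positivity) ?_
    have : (i.val : ℤ) < n + 2 := by exact_mod_cast hi
    linarith
  · intro i
    have hi : i.val < n + 2 := i.2
    have h2 : ∑ j : Fin (n + 2), (DT.B n).form i j * (((j.val : ℤ) + 1) * (2 * (n + 2) - j.val))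
        = (∑ j : Fin (n + 2), (if j.val = i.val then
              (if i.val = n + 1 then 2 else 4) * (((j.val : ℤ) + 1) * (2 * (n + 2) - j.val)) else 0))
          + (∑ j : Fin (n + 2), (if j.val = i.val - 1 then
              (if 0 < i.val then -2 else 0) * (((j.val : ℤ) + 1) * (2 * (n + 2) - j.val)) else 0))
          + (∑ j : Fin (n + 2), (if j.val = i.val + 1 then
              (-2) * (((j.val : ℤ) + 1) * (2 * (n + 2) - j.val)) else 0)) := by
      rw [← Finset.sum_add_distrib, ← Finset.sum_add_distrib]
      refine Finset.sum_congr rfl fun j _ => ?_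
      rw [good_B_form, add_mul, add_mul]
      simp only [ite_mul, zero_mul]
    show 0 < ∑ j : Fin (n + 2), (DT.B n).form i j * (((j.val : ℤ) + 1) * (2 * (n + 2) - j.val))
    rw [h2, good_B_sum (n + 2) i.val
        (fun k => (if i.val = n + 1 then 2 else 4) * (((k : ℤ) + 1) * (2 * (n + 2) - k))),
      good_B_sum (n + 2) (i.val - 1)
        (fun k => (if 0 < i.val then -2 else 0) * (((k : ℤ) + 1) * (2 * (n + 2) - k))),
      good_B_sum (n + 2) (i.val + 1)
        (fun k => (-2) * (((k : ℤ) + 1) * (2 * (n + 2) - k)))]
    rw [if_pos hi, if_pos (show i.val - 1 < n + 2 by omega)]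
    generalize i.val = k at hi
    rcases Nat.eq_zero_or_pos k with hk | hk
    · subst hk
      rw [if_neg (show ¬ 0 = n + 1 by omega), if_neg (lt_irrefl 0),
        if_pos (show 0 + 1 < n + 2 by omega)]
      push_cast
      linarith
    · obtain ⟨m, rfl⟩ : ∃ m, k = m + 1 := ⟨k - 1, by omega⟩
      rw [if_pos hk, Nat.add_sub_cancel]
      by_cases hn : m + 1 = n + 1
      · rw [if_pos hn, if_neg (show ¬ m + 1 + 1 < n + 2 by omega)]
        have : m = n := by omega
        subst this
        push_cast
        nlinarith
      · rw [if_neg hn, if_pos (show m + 1 + 1 < n + 2 by omega)]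
        push_cast
        nlinarith

end J4c
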